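import Pool.Agent.Helper63.RP4.T3
import Pool.Agent.Helper63.RP4.T4

/-!
# Project KP (MP_973bc8_pr): the constant `K` of square ice is positive

Towers, the drift `psi` of the tower dynamics, the charges `chgU` of the heads.
-/

open Finset RP4

namespace KP

/-- the four directions -/
def dirs : Finset V := {(1, 0), (-1, 0), (0, 1), (0, -1)}

lemma mem_dirs {d : V} : d ∈ dirs ↔ d = (1, 0) ∨ d = (-1, 0) ∨ d = (0, 1) ∨ d = (0, -1) := by
  simp [dirs]

/-- perpendicular direction -/
def prp (d : V) : V := (d.2, d.1)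

/-- opposite direction -/
def nd (d : V) : V := (-d.1, -d.2)

/-- `x + i d` -/
def pt (x d : V) (i : ℤ) : V := (x.1 + i * d.1, x.2 + i * d.2)

/-- up tower with head `x`, direction `d`, length `l`: along `x, x + d, ..., x + (l-1) d` the heights decrease by
one at each step, the side neighbours and the neighbours beyond both ends are one higher. (All these sites can be
raised by two, one after the other, beginning at the end `x + (l-1) d`.) -/
structure Up (h : V → ℤ) (x d : V) (l : ℕ) : Prop where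
  pos : 1 ≤ l
  site : ∀ i : ℤ, 0 ≤ i → i < l → h (pt x d i) = h x - i
  side1 : ∀ i : ℤ, 0 ≤ i → i < l → h (pt (pt x d i) (prp d) 1) = h x - i + 1
  side2 : ∀ i : ℤ, 0 ≤ i → i < l → h (pt (pt x d i) (prp d) (-1)) = h x - i + 1
  head : h (pt x d (-1)) = h x + 1
  tail : h (pt x d l) = h x - l + 2

/-- down tower -/
def Down (h : V → ℤ) (x d : V) (l : ℕ) : Prop := Up (fun v => -h v) x d l

/-- the sites of a tower -/
def Seg (x d : V) (l : ℕ) (v : V) : Prop := ∃ i : ℤ, 0 ≤ i ∧ i < l ∧ v = pt x d i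

open Classical in
/-- raise the tower -/
noncomputable def rz (h : V → ℤ) (x d : V) (l : ℕ) : V → ℤ := fun v => if Seg x d l v then h v + 2 else h v

open Classical in
/-- lower the tower -/
noncomputable def lw (h : V → ℤ) (x d : V) (l : ℕ) : V → ℤ := fun v => if Seg x d l v then h v - 2 else h v

open Classical in
/-- indicator -/
noncomputable def ind (p : Prop) : ℝ := if p then 1 else 0

lemma ind_nonneg (p : Prop) : 0 ≤ ind p := by
  unfold ind
  split_ifs <;> norm_num

lemma ind_le_one (p : Prop) : ind p ≤ 1 := by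
  unfold ind
  split_ifs <;> norm_num

lemma ind_mono {p q : Prop} (h : p → q) : ind p ≤ ind q := by
  unfold ind
  split_ifs with h1 h2
  · exact le_rfl
  · exact absurd (h h1) h2
  · norm_num
  · exact le_rfl

/-- the rates -/
noncomputable def rho (l : ℕ) : ℝ := if l = 1 then 1 / 2 else 1 / l

lemma rho_nonneg (l : ℕ) : 0 ≤ rho l := by
  unfold rho
  split_ifs <;> positivity

lemma rho_le (l : ℕ) : rho l ≤ 1 / l := by
  unfold rho
  split_ifs with h
  · rw [h]
    norm_num
  · exact le_rfl

/-- signed rate times height change -/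
noncomputable def tw (h : V → ℤ) (x d : V) (l : ℕ) : ℝ := 2 * rho l * (ind (Up h x d l) - ind (Down h x d l))

/-- the drift at `x` of the dynamics of the towers of length at most `R`: sum over all towers containing `x` -/
noncomputable def psi (R : ℕ) (h : V → ℤ) (x : V) : ℝ :=
  ∑ d ∈ dirs, ∑ l ∈ Icc 1 R, ∑ i ∈ range l, tw h (pt x d (-(i : ℤ))) d l

/-- total height change of the up towers with head `x` -/
noncomputable def chgU (R : ℕ) (h : V → ℤ) (x : V) : ℝ :=
  ∑ d ∈ dirs, ∑ l ∈ Icc 1 R, (l : ℝ) * (2 * rho l * ind (Up h x d l))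

/-- total drift of the towers with head `x` -/
noncomputable def chg (R : ℕ) (h : V → ℤ) (x : V) : ℝ := ∑ d ∈ dirs, ∑ l ∈ Icc 1 R, (l : ℝ) * tw h x d l

/-- lattice Laplacian -/
def Lap (h : V → ℤ) (x : V) : ℤ :=
  h (x.1 + 1, x.2) + h (x.1 - 1, x.2) + h (x.1, x.2 + 1) + h (x.1, x.2 - 1) - 4 * h x

/-- number of directions with a long run -/
noncomputable def lng (R : ℕ) (h : V → ℤ) (x : V) : ℝ := ∑ d ∈ dirs, ind (|h (pt x d R) - h x| = R)

/-- unit steps in the ball of radius `r` about `x` -/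
def Unit' (h : V → ℤ) (x : V) (r : ℤ) : Prop :=
  ∀ u v, dist1 x u ≤ r → dist1 x v ≤ r → Adj u v → |h u - h v| = 1

/-- the square of radius `N` about `x` -/
noncomputable def Box (x : V) (N : ℕ) : Finset V :=
  Finset.Icc (x.1 - N) (x.1 + N) ×ˢ Finset.Icc (x.2 - N) (x.2 + N)

lemma mem_Box {x y : V} {N : ℕ} : y ∈ Box x N ↔ |y.1 - x.1| ≤ N ∧ |y.2 - x.2| ≤ N := by
  simp only [Box, Finset.mem_product, Finset.mem_Icc, abs_le]
  constructor
  · rintro ⟨⟨h1, h2⟩, h3, h4⟩
    exact ⟨⟨by linarith, by linarith⟩, by linarith, by linarith⟩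
  · rintro ⟨⟨h1, h2⟩, h3, h4⟩
    exact ⟨⟨by linarith, by linarith⟩, by linarith, by linarith⟩

/-- the polynomial tails of the height differences along lines, in `D`, for the points of `S` -/
def TailD (D S : Finset V) (R : ℕ) (C : ℝ) : Prop := ∀ x ∈ S, ∀ d ∈ dirs, ∀ l : ℕ, l ≤ R →
  avg (Om D) (fun h => ind (|h (pt x d l) - h x| = l)) ≤ C / ((l : ℝ) + 1) ^ 16

end KP
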