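import Pool.Agent.Helper58.KP.C
import Pool.Agent.Helper63.RP4.Fin

/-!
Inputs: the second moment of the Laplacian, the tails.
-/

open Finset RP4 Filter Topology

namespace KP

/-! ### H1: the second moment of the Laplacian at the centre of a diamond -/

/-
`rp_gen` for `reflD_axis` and `D = diam (2 m)` (invariant), `F h = h (1,0) - h (0,0)`: `0 ≤ ∑ (h (1,0) - h 0) (h (-1,0) - h 0)`.
-/
theorem rp_axis (m : ℕ) : 0 ≤ avg (Om (diam (2 * m)))
    (fun h => ((h (1, 0) : ℝ) - h (0, 0)) * ((h (-1, 0) : ℝ) - h (0, 0))) := by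
  unfold avg
  refine div_nonneg ?_ (Nat.cast_nonneg _)
  have h1 := rp_gen reflD_axis (diam (2 * m)) (fun v => by
    rw [mem_diam, mem_diam]
    simp only [abs_neg]) (fun h => (h (1, 0) : ℝ) - h (0, 0)) (fun g g' h => by
      rw [h (1, 0) (by norm_num), h (0, 0) (by norm_num)])
  simpa using h1

/-
`rp_gen` for `reflD_diag`, `F h = h (1,0) - h (0,0)` (`(1, 0) ↦ (0, -1)`).
-/
theorem rp_diag (m : ℕ) : 0 ≤ avg (Om (diam (2 * m)))
    (fun h => ((h (1, 0) : ℝ) - h (0, 0)) * ((h (0, -1) : ℝ) - h (0, 0))) := by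
  unfold avg
  refine div_nonneg ?_ (Nat.cast_nonneg _)
  have h1 := rp_gen reflD_diag (diam (2 * m)) (fun v => by
    rw [mem_diam, mem_diam]
    simp only [abs_neg]
    rw [add_comm]) (fun h => (h (1, 0) : ℝ) - h (0, 0)) (fun g g' h => by
      rw [h (1, 0) (by norm_num), h (0, 0) (by norm_num)])
  simpa using h1

private lemma lo_swap (n : ℕ) : img swapV (diam n) = diam n := by
  ext v
  rw [T1_mem_img, mem_diam, mem_diam]
  show |v.2| + |v.1| ≤ (n : ℤ) ↔ _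
  rw [add_comm]

private lemma lo_refl (n : ℕ) : img refl1 (diam n) = diam n := by
  ext v
  rw [T1_mem_img, mem_diam, mem_diam]
  show |-v.1| + |v.2| ≤ (n : ℤ) ↔ _
  rw [abs_neg]

/-- the correlation of two differences -/
private noncomputable def loE (m : ℕ) (u v : V) : ℝ :=
  avg (Om (diam (2 * m))) (fun h => ((h u : ℝ) - h (0, 0)) * ((h v : ℝ) - h (0, 0)))

private lemma loE_swap (m : ℕ) (a b c d : ℤ) : loE m (b, a) (d, c) = loE m (a, b) (c, d) := by
  have h1 := avg_Om_img swapV_lsym (fun v => by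
    show Even ((v.2 + v.1) - (v.1 + v.2))
    rw [show (v.2 + v.1) - (v.1 + v.2) = 0 by ring]
    exact Even.zero) (diam (2 * m))
    (fun h => ((h (a, b) : ℝ) - h (0, 0)) * ((h (c, d) : ℝ) - h (0, 0)))
  rw [lo_swap] at h1
  exact h1

private lemma loE_refl (m : ℕ) (a b c d : ℤ) : loE m (-a, b) (-c, d) = loE m (a, b) (c, d) := by
  have h1 := avg_Om_img refl1_lsym (fun v => by
    show Even ((-v.1 + v.2) - (v.1 + v.2))
    rw [show (-v.1 + v.2) - (v.1 + v.2) = 2 * (-v.1) by ring]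
    exact even_two_mul _) (diam (2 * m))
    (fun h => ((h (a, b) : ℝ) - h (0, 0)) * ((h (c, d) : ℝ) - h (0, 0)))
  rw [lo_refl] at h1
  have h2 : (fun g : V → ℤ => ((g (refl1 (a, b)) : ℝ) - g (refl1 (0, 0))) *
      ((g (refl1 (c, d)) : ℝ) - g (refl1 (0, 0)))) =
      fun g : V → ℤ => ((g (-a, b) : ℝ) - g (0, 0)) * ((g (-c, d) : ℝ) - g (0, 0)) := by
    funext g
    have e0 : refl1 ((0, 0) : V) = (0, 0) := by
      show ((-0, 0) : V) = (0, 0)
      simp
    rw [e0]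
    rfl
  rw [h2] at h1
  exact h1

private lemma loE_comm (m : ℕ) (u v : V) : loE m u v = loE m v u := by
  unfold loE
  congr 1
  funext h
  ring

private lemma lo_sq {m : ℕ} (hm : 1 ≤ m) {h : V → ℤ} (hh : h ∈ Om (diam (2 * m))) {u : V}
    (hu : Adj u (0, 0)) : ((h u : ℝ) - h (0, 0)) ^ 2 = 1 := by
  have hu' : |u.1 - 0| + |u.2 - 0| = 1 := hu
  rw [sub_zero, sub_zero] at hu'
  have h1 : |h u - h (0, 0)| = 1 := by
    refine (mem_Om.1 hh).1.step u ?_ (0, 0) ?_ hu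
    · rw [mem_diam, hu']
      push_cast
      omega
    · rw [mem_diam]
      simp
  have h2 : (h u - h (0, 0)) ^ 2 = 1 := by
    rw [← sq_abs, h1]
    norm_num
  exact_mod_cast h2

/-
The other pairs of neighbours by the symmetries of the diamond (`avg_Om_img` with `refl1`, `swapV` of T1.lean; `img τ (diam n) = diam n`): `rp_axis` gives the pairs
`(1,0), (-1,0)` and `(0,1), (0,-1)`; `rp_diag` the four pairs of neighbours at right angles.  `Lap h 0 = ∑ (h y - h 0)`, squares are `1` (`m ≥ 1`: the neighbours are in the diamond),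
so `E Lap^2 = 4 + 2 * (six nonnegative terms)`.
-/
theorem lap_origin (m : ℕ) (hm : 1 ≤ m) :
    4 ≤ avg (Om (diam (2 * m))) (fun h => (Lap h (0, 0) : ℝ) ^ 2) := by
  have ab : 0 ≤ loE m (1, 0) (-1, 0) := rp_axis m
  have ad : 0 ≤ loE m (1, 0) (0, -1) := rp_diag m
  have cd : 0 ≤ loE m (0, 1) (0, -1) := by
    rw [loE_swap m 1 0 (-1) 0]
    exact ab
  have cb : 0 ≤ loE m (0, 1) (-1, 0) := by
    rw [loE_swap m 1 0 0 (-1)]
    exact ad
  have bd : 0 ≤ loE m (-1, 0) (0, -1) := by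
    have h1 := loE_refl m 1 0 0 (-1)
    rw [neg_zero] at h1
    rw [h1]
    exact ad
  have ca : 0 ≤ loE m (0, 1) (1, 0) := by
    have h1 := loE_refl m 0 1 (-1) 0
    rw [neg_zero, neg_neg] at h1
    rw [h1]
    exact cb
  have hpar : BdryPar (diam (2 * m)) 0 := diam_bdryPar (2 * m) (even_two_mul m)
  have hcard : (0 : ℝ) < (Om (diam (2 * m))).card := by
    exact_mod_cast Finset.card_pos.2 (Om_nonempty hpar)
  have key : ∀ h ∈ Om (diam (2 * m)), (Lap h (0, 0) : ℝ) ^ 2 = 4 +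
      2 * (((h (1, 0) : ℝ) - h (0, 0)) * ((h (-1, 0) : ℝ) - h (0, 0)) +
        ((h (1, 0) : ℝ) - h (0, 0)) * ((h (0, -1) : ℝ) - h (0, 0)) +
        ((h (0, 1) : ℝ) - h (0, 0)) * ((h (0, -1) : ℝ) - h (0, 0)) +
        ((h (0, 1) : ℝ) - h (0, 0)) * ((h (-1, 0) : ℝ) - h (0, 0)) +
        ((h (-1, 0) : ℝ) - h (0, 0)) * ((h (0, -1) : ℝ) - h (0, 0)) +
        ((h (0, 1) : ℝ) - h (0, 0)) * ((h (1, 0) : ℝ) - h (0, 0))) := by
    intro h hh
    have a2 := lo_sq hm hh (u := (1, 0)) (by simp [Adj])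
    have b2 := lo_sq hm hh (u := (-1, 0)) (by simp [Adj])
    have c2 := lo_sq hm hh (u := (0, 1)) (by simp [Adj])
    have d2 := lo_sq hm hh (u := (0, -1)) (by simp [Adj])
    have e : (Lap h (0, 0) : ℝ) = ((h (1, 0) : ℝ) - h (0, 0)) + ((h (-1, 0) : ℝ) - h (0, 0)) +
        ((h (0, 1) : ℝ) - h (0, 0)) + ((h (0, -1) : ℝ) - h (0, 0)) := by
      have e1 : Lap h (0, 0) = h (1, 0) + h (-1, 0) + h (0, 1) + h (0, -1) - 4 * h (0, 0) := by
        unfold Lap
        norm_num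
      rw [e1]
      push_cast
      ring
    rw [e]
    linear_combination a2 + b2 + c2 + d2
  have h1 : avg (Om (diam (2 * m))) (fun h => (Lap h (0, 0) : ℝ) ^ 2) =
      4 + 2 * (loE m (1, 0) (-1, 0) + loE m (1, 0) (0, -1) + loE m (0, 1) (0, -1) +
        loE m (0, 1) (-1, 0) + loE m (-1, 0) (0, -1) + loE m (0, 1) (1, 0)) := by
    unfold loE avg
    rw [Finset.sum_congr rfl key, Finset.sum_add_distrib, ← Finset.mul_sum]
    simp only [Finset.sum_add_distrib, Finset.sum_const, nsmul_eq_mul]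
    field_simp
  rw [h1]
  linarith

/-! ### H2: everywhere, for large domains -/

private lemma KPH2_lap (h : V → ℤ) :
    (∑ x ∈ ({(1, 0), (-1, 0), (0, 1), (0, -1)} : Finset V), (1 : ℝ) * ((h x : ℝ) - h 0)) =
      (Lap h (0, 0) : ℝ) := by
  have e : (0 : V) = ((0, 0) : ℤ × ℤ) := rfl
  rw [Finset.sum_insert (by decide), Finset.sum_insert (by decide), Finset.sum_insert (by decide),
    Finset.sum_singleton, e]
  unfold Lap
  simp only [zero_add, zero_sub]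
  push_cast
  ring

/-
`Lap h 0 = ∑_{x ∈ s} u x (h x - h 0)` with `s` the four neighbours, `u = 1`: `pair_tendsto` (Fin.lean of RP4) shows that `avg (Om D) (Lap h 0)^2` converges along `dom`;
along the diamonds (`diam_tendsto`) it is `≥ 4` by `lap_origin`, so the limit is `≥ 4` and eventually it is `≥ 3`.
-/
theorem lap_eventually_zero {a : V → V → ℝ}
    (ha : ∀ x y, Tendsto (fun D => avg (Om D) (fun h => (((h x - h y : ℤ) : ℝ)) ^ 2)) dom (𝓝 (a x y))) :
    ∀ᶠ D in dom, 3 ≤ avg (Om D) (fun h => (Lap h (0, 0) : ℝ) ^ 2) := by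
  have h1 := pair_tendsto ha (fun _ => (1 : ℝ)) (fun _ => (1 : ℝ))
    ({(1, 0), (-1, 0), (0, 1), (0, -1)} : Finset V) ({(1, 0), (-1, 0), (0, 1), (0, -1)} : Finset V)
  simp only [KPH2_lap, ← pow_two] at h1
  have h2 := h1.comp diam_tendsto
  have h3 := ge_of_tendsto (b := (4 : ℝ)) h2 (by
    filter_upwards [eventually_ge_atTop 1] with m hm
    exact lap_origin m hm)
  filter_upwards [h1.eventually_const_lt (show (3 : ℝ) < _ by linarith)] with D hD
  exact hD.le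

/-
By `eventually_dom` there is `G₀` with the bound for all `D ⊇ G₀` with even boundary.  For even `x` and `D ⊇ G₀ + x` apply it to `img (trans (-x)) D` and
`avg_Om_img` (T1.lean): `avg (Om D) (Lap h x)^2 = avg (Om (D - x)) (Lap g 0)^2`.  Intersect over the finite set `F`.
-/
theorem lap_eventually {a : V → V → ℝ}
    (ha : ∀ x y, Tendsto (fun D => avg (Om D) (fun h => (((h x - h y : ℤ) : ℝ)) ^ 2)) dom (𝓝 (a x y)))
    (F : Finset V) :
    ∀ᶠ D in dom, ∀ x ∈ F, Even (par x) → 3 ≤ avg (Om D) (fun h => (Lap h x : ℝ) ^ 2) := by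
  rw [Filter.eventually_all_finset]
  intro x _
  rw [Filter.eventually_imp_distrib_left]
  intro hx
  obtain ⟨G, hG⟩ := eventually_dom.1 (lap_eventually_zero ha)
  rw [eventually_dom]
  refine ⟨img (RP4.trans x) G, fun D hD hp => ?_⟩
  have h0 : RP4.trans (-x) x = (0, 0) := by simp [RP4.trans]; rfl
  have h1 : G ⊆ img (RP4.trans (-x)) D := by
    intro v hv
    rw [T1_mem_img]
    apply hD
    rw [T1_mem_img]
    simpa [RP4.trans] using hv
  have h2 : BdryPar (img (RP4.trans (-x)) D) 0 := by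
    have h3 : BdryPar D (par x) := by
      intro v hv
      have := hp v hv
      rw [Int.even_iff] at this hx ⊢
      omega
    have h4 := (bdryPar_img (RP4.trans_lsym (-x)) D x).2 h3
    rw [h0] at h4
    simpa [par] using h4
  have h5 := hG _ h1 h2
  have he : ∀ v, Even (par (RP4.trans (-x) v) - par v) := by
    intro v
    unfold par at hx
    simp only [RP4.trans, Equiv.coe_addRight, par, Prod.fst_add, Prod.snd_add, Prod.fst_neg, Prod.snd_neg]
    rw [Int.even_iff] at hx ⊢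
    omega
  have h6 := avg_Om_img (RP4.trans_lsym (-x)) he D (fun g => (Lap g x : ℝ) ^ 2)
  rw [← h6]
  refine h5.trans (le_of_eq ?_)
  congr 1
  funext g
  have e : ∀ v : V, RP4.trans (-x) v = (v.1 - x.1, v.2 - x.2) := by
    intro v
    simp [RP4.trans, sub_eq_add_neg]; rfl
  unfold Lap
  simp only [e]
  congr 3 <;> simp

/-! ### H3: tails -/

/-
`1 + log t ≤ 5 (1 + (1/5) log t) ≤ 5 t^(1/5)` (`Real.add_one_le_exp`), 20th power.
-/
theorem log_pow_bound (t : ℝ) (ht : 1 ≤ t) : (1 + Real.log t) ^ 20 ≤ 5 ^ 20 * t ^ 4 := by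
  have h0 : 0 ≤ Real.log t := Real.log_nonneg ht
  have h1 := Real.add_one_le_exp (Real.log t / 5)
  have h2 : 1 + Real.log t ≤ 5 * Real.exp (Real.log t / 5) := by linarith
  have h3 : (1 + Real.log t) ^ 20 ≤ (5 * Real.exp (Real.log t / 5)) ^ 20 :=
    pow_le_pow_left₀ (by linarith) h2 20
  refine h3.trans (le_of_eq ?_)
  rw [mul_pow, ← Real.exp_nat_mul]
  congr 1
  have h4 : ((20 : ℕ) : ℝ) * (Real.log t / 5) = ((4 : ℕ) : ℝ) * Real.log t := by
    push_cast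
    ring
  rw [h4, Real.exp_nat_mul, Real.exp_log (by linarith)]

private lemma a_bound_avg_le {S : Finset (V → ℤ)} {F : (V → ℤ) → ℝ} {c : ℝ} (hc : 0 ≤ c)
    (h : ∀ g ∈ S, F g ≤ c) : avg S F ≤ c := by
  unfold avg
  have h1 : ∑ g ∈ S, F g ≤ (S.card : ℝ) * c := by
    have h2 := Finset.sum_le_sum h
    rw [Finset.sum_const, nsmul_eq_mul] at h2
    exact h2
  rcases Nat.eq_zero_or_pos S.card with h0 | h0
  · rw [h0]
    simpa using hc
  · have h3 : (0 : ℝ) < (S.card : ℝ) := by exact_mod_cast h0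
    rw [div_le_iff₀ h3]
    linarith

private lemma a_bound_near {a : V → V → ℝ}
    (ha : ∀ x y, Tendsto (fun D => avg (Om D) (fun h => (((h x - h y : ℤ) : ℝ)) ^ 2)) dom (𝓝 (a x y)))
    (x d : V) (l : ℕ) (hd : d ∈ dirs) : a (pt x d l) x ≤ (l : ℝ) ^ 2 := by
  have hdist : dist1 x (pt x d l) = (l : ℤ) := by
    unfold dist1 pt
    rw [mem_dirs] at hd
    rcases hd with rfl | rfl | rfl | rfl <;> simp
  refine le_of_tendsto (ha (pt x d l) x) ?_
  rw [eventually_dom]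
  refine ⟨Box x l, fun D hD _ => ?_⟩
  refine a_bound_avg_le (by positivity) (fun g hg => ?_)
  have hg' := (mem_Om.1 hg).1
  have hlip := IsHom.lip hg' x (pt x d l) (fun v hv => hD (by
    rw [mem_Box]
    rw [hdist] at hv
    unfold dist1 at hv
    rw [abs_sub_comm v.1, abs_sub_comm v.2]
    have h1 := abs_nonneg (x.1 - v.1)
    have h2 := abs_nonneg (x.2 - v.2)
    exact ⟨by linarith, by linarith⟩))
  rw [hdist] at hlip
  have h1 : |((g (pt x d l) - g x : ℤ) : ℝ)| ≤ |((l : ℕ) : ℝ)| := by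
    have h2 : |((l : ℕ) : ℝ)| = (l : ℝ) := abs_of_nonneg (Nat.cast_nonneg l)
    rw [h2]
    exact_mod_cast hlip
  exact sq_le_sq.2 h1

private lemma a_bound_elen (x d : V) (l : ℕ) (hd : d ∈ dirs) : elen (pt x d l - x) = (l : ℝ) := by
  unfold elen pt
  rw [mem_dirs] at hd
  rcases hd with rfl | rfl | rfl | rfl <;> simp

/-
For `l < R₀`: `a ≤ l^2` as a limit of averages `≤ l^2` (`IsHom.lip`, A01.lean); for `l ≥ R₀`: `hlog` with `ε = 1` (`elen = l`).  So there is `A` with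
`a (pt x d l) x ≤ A (1 + log (l + 1))`.
-/
theorem a_bound {K : ℝ} {a : V → V → ℝ} (hK : 0 ≤ K)
    (ha : ∀ x y, Tendsto (fun D => avg (Om D) (fun h => (((h x - h y : ℤ) : ℝ)) ^ 2)) dom (𝓝 (a x y)))
    (hlog : ∀ ε > 0, ∃ R : ℝ, 1 < R ∧ ∀ x y : V, R ≤ elen (x - y) →
      |a x y / Real.log (elen (x - y)) - K / Real.pi| ≤ ε) :
    ∃ A : ℝ, 1 ≤ A ∧ ∀ (x d : V) (l : ℕ), d ∈ dirs → a (pt x d l) x ≤ A * (1 + Real.log ((l : ℝ) + 1)) := by
  obtain ⟨R, hR1, hR⟩ := hlog 1 one_pos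
  have hKpi : 0 ≤ K / Real.pi := div_nonneg hK Real.pi_pos.le
  refine ⟨K / Real.pi + 1 + R ^ 2, by nlinarith [sq_nonneg R], fun x d l hd => ?_⟩
  have hl0 : (0 : ℝ) ≤ (l : ℝ) := Nat.cast_nonneg l
  have hlg : 0 ≤ Real.log ((l : ℝ) + 1) := Real.log_nonneg (by linarith)
  rcases lt_or_ge (l : ℝ) R with hlt | hge
  · have h1 := a_bound_near ha x d l hd
    have h2 : (l : ℝ) ^ 2 ≤ R ^ 2 := pow_le_pow_left₀ hl0 hlt.le 2
    have h3 : R ^ 2 ≤ K / Real.pi + 1 + R ^ 2 := by linarith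
    have h4 : 0 ≤ K / Real.pi + 1 + R ^ 2 := by positivity
    nlinarith
  · have hel := a_bound_elen x d l hd
    have h1 := hR (pt x d l) x (by rw [hel]; exact hge)
    rw [hel] at h1
    have hlpos : 0 < Real.log (l : ℝ) := Real.log_pos (by linarith)
    have h2 : a (pt x d l) x / Real.log (l : ℝ) ≤ K / Real.pi + 1 := by
      have h3 := (abs_le.1 h1).2
      linarith
    rw [div_le_iff₀ hlpos] at h2
    have h3 : Real.log (l : ℝ) ≤ Real.log ((l : ℝ) + 1) :=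
      Real.log_le_log (by linarith) (by linarith)
    have h4 : (K / Real.pi + 1) * Real.log (l : ℝ) ≤ (K / Real.pi + 1) * (1 + Real.log ((l : ℝ) + 1)) :=
      mul_le_mul_of_nonneg_left (by linarith) (by linarith)
    have h5 : 0 ≤ R ^ 2 * (1 + Real.log ((l : ℝ) + 1)) := by positivity
    linarith

private lemma KPH3b_avg_nonneg (S : Finset (V → ℤ)) (F : (V → ℤ) → ℝ) (h : ∀ g, 0 ≤ F g) :
    0 ≤ avg S F := by
  unfold avg
  exact div_nonneg (Finset.sum_nonneg fun g _ => h g) (Nat.cast_nonneg _)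

private lemma KPH3b_mul (S : Finset (V → ℤ)) (F : (V → ℤ) → ℝ) (c : ℝ) :
    avg S (fun h => c * F h) = c * avg S F := by
  unfold avg
  rw [← Finset.mul_sum, mul_div_assoc]

private lemma KPH3b_markov (S : Finset (V → ℤ)) (x y : V) (l : ℕ) :
    (l : ℝ) ^ 20 * avg S (fun h => ind (|h y - h x| = l)) ≤
      avg S (fun h => (((h y - h x : ℤ) : ℝ)) ^ 20) := by
  rw [← KPH3b_mul]
  refine avg_mono fun h _ => ?_
  have he : (((h y - h x : ℤ) : ℝ)) ^ 20 = |((h y - h x : ℤ) : ℝ)| ^ 20 := (Even.pow_abs (by decide) _).symm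
  unfold ind
  split_ifs with h1
  · rw [he, ← Int.cast_abs, h1, mul_one]
    norm_cast
  · rw [mul_zero, he]
    positivity

private lemma KPH3b_one {a : V → V → ℝ} {A C₀ : ℝ} (hA : 1 ≤ A) (hC : 0 ≤ C₀) (x d : V) (l : ℕ)
    (hl : 1 ≤ l)
    (hta : Tendsto (fun D => avg (Om D) (fun h => (((h (pt x d l) - h x : ℤ) : ℝ)) ^ 2)) dom
      (𝓝 (a (pt x d l) x)))
    (hab : a (pt x d l) x ≤ A * (1 + Real.log ((l : ℝ) + 1)))
    (hmom : ∀ D : Finset V, BdryPar D 0 → ∀ x ∈ D, ∀ y ∈ D,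
      avg (Om D) (fun h => (((h x - h y : ℤ) : ℝ)) ^ 20) ≤
        C₀ * (avg (Om D) (fun h => (((h x - h y : ℤ) : ℝ)) ^ 2) + 1) ^ 10) :
    ∀ᶠ D in dom, avg (Om D) (fun h => ind (|h (pt x d l) - h x| = l)) ≤
      (C₀ * (3 * A) ^ 10 * 5 ^ 20 * 2 ^ 20) / ((l : ℝ) + 1) ^ 16 := by
  classical
  have e1 := hta.eventually_lt_const (lt_add_one (a (pt x d l) x))
  have e2 : ∀ᶠ D in dom, ({x, pt x d l} : Finset V) ⊆ D ∧ BdryPar D 0 :=
    eventually_dom.2 ⟨{x, pt x d l}, fun D h1 h2 => ⟨h1, h2⟩⟩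
  filter_upwards [e1, e2] with D h1 h2
  obtain ⟨h2, h3⟩ := h2
  have hx : x ∈ D := h2 (by simp)
  have hy : pt x d l ∈ D := h2 (by simp)
  have h4 := hmom D h3 _ hy x hx
  have h7 := KPH3b_markov (Om D) x (pt x d l) l
  have hP : 0 ≤ avg (Om D) (fun h => ind (|h (pt x d l) - h x| = l)) :=
    KPH3b_avg_nonneg _ _ fun h => ind_nonneg _
  have hQ : 0 ≤ avg (Om D) (fun h => (((h (pt x d l) - h x : ℤ) : ℝ)) ^ 2) :=
    KPH3b_avg_nonneg _ _ fun h => sq_nonneg _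
  set P := avg (Om D) (fun h => ind (|h (pt x d l) - h x| = l)) with hPdef
  set Q := avg (Om D) (fun h => (((h (pt x d l) - h x : ℤ) : ℝ)) ^ 2) with hQdef
  set M := avg (Om D) (fun h => (((h (pt x d l) - h x : ℤ) : ℝ)) ^ 20) with hMdef
  have hl1 : (1 : ℝ) ≤ l := by exact_mod_cast hl
  set t : ℝ := (l : ℝ) + 1 with ht
  have ht1 : 1 ≤ t := by linarith
  have hlg : 0 ≤ Real.log t := Real.log_nonneg ht1
  have h8 : 1 ≤ A * (1 + Real.log t) := by nlinarith
  have h5 : (Q + 1) ^ 10 ≤ (3 * A * (1 + Real.log t)) ^ 10 :=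
    pow_le_pow_left₀ (by linarith) (by nlinarith) 10
  have h6 : (3 * A * (1 + Real.log t)) ^ 10 ≤ (3 * A) ^ 10 * (5 ^ 20 * t ^ 4) := by
    rw [mul_pow]
    refine mul_le_mul_of_nonneg_left ?_ (by positivity)
    exact (pow_le_pow_right₀ (by linarith) (by norm_num)).trans (log_pow_bound t ht1)
  have h9 : (l : ℝ) ^ 20 * P ≤ C₀ * ((3 * A) ^ 10 * (5 ^ 20 * t ^ 4)) :=
    (h7.trans h4).trans (mul_le_mul_of_nonneg_left (h5.trans h6) hC)
  have h10 : t ^ 20 ≤ 2 ^ 20 * (l : ℝ) ^ 20 := by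
    rw [← mul_pow]
    exact pow_le_pow_left₀ (by linarith) (by linarith) 20
  have ht4 : 0 < t ^ 4 := by positivity
  rw [le_div_iff₀ (by positivity)]
  refine le_of_mul_le_mul_right ?_ ht4
  calc P * t ^ 16 * t ^ 4 = t ^ 20 * P := by ring
    _ ≤ 2 ^ 20 * (l : ℝ) ^ 20 * P := mul_le_mul_of_nonneg_right h10 hP
    _ = 2 ^ 20 * ((l : ℝ) ^ 20 * P) := by ring
    _ ≤ 2 ^ 20 * (C₀ * ((3 * A) ^ 10 * (5 ^ 20 * t ^ 4))) :=
        mul_le_mul_of_nonneg_left h9 (by positivity)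
    _ = C₀ * (3 * A) ^ 10 * 5 ^ 20 * 2 ^ 20 * t ^ 4 := by ring

private lemma KPH3b_zero (S : Finset (V → ℤ)) (x d : V) :
    avg S (fun h => ind (|h (pt x d (0 : ℕ)) - h x| = (0 : ℕ))) ≤ 1 := by
  unfold avg
  refine div_le_one_of_le₀ ?_ (Nat.cast_nonneg _)
  refine (Finset.sum_le_sum fun h _ => ind_le_one _).trans ?_
  simp

/-
Markov inequality with the 20th moment: `l^20 P(|h (pt x d l) - h x| = l) ≤ C₂₀ (E_D (..)^2 + 1)^10`, eventually `E_D (..)^2 ≤ a + 1`, `a_bound`,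
`(A (1 + log) + 2)^10 ≤ (3 A)^10 (1 + log)^10 ≤ (3A)^10 (1+log)^20`, `log_pow_bound`, `l + 1 ≤ 2 l`; for `l = 0` the probability is at most `1`.  Finitely many `x, d, l`.
-/
theorem tail_input {K : ℝ} {a : V → V → ℝ} (hK : 0 ≤ K)
    (ha : ∀ x y, Tendsto (fun D => avg (Om D) (fun h => (((h x - h y : ℤ) : ℝ)) ^ 2)) dom (𝓝 (a x y)))
    (hlog : ∀ ε > 0, ∃ R : ℝ, 1 < R ∧ ∀ x y : V, R ≤ elen (x - y) →
      |a x y / Real.log (elen (x - y)) - K / Real.pi| ≤ ε)
    (hmom : ∃ C : ℝ, 0 ≤ C ∧ ∀ D : Finset V, BdryPar D 0 → ∀ x ∈ D, ∀ y ∈ D,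
      avg (Om D) (fun h => (((h x - h y : ℤ) : ℝ)) ^ 20) ≤
        C * (avg (Om D) (fun h => (((h x - h y : ℤ) : ℝ)) ^ 2) + 1) ^ 10) :
    ∃ C : ℝ, 0 ≤ C ∧ ∀ (R : ℕ) (F : Finset V), ∀ᶠ D in dom, TailD D F R C := by
  obtain ⟨A, hA, hAb⟩ := a_bound hK ha hlog
  obtain ⟨C₀, hC, hmom⟩ := hmom
  have hM : 0 ≤ C₀ * (3 * A) ^ 10 * 5 ^ 20 * 2 ^ 20 := by positivity
  refine ⟨1 + C₀ * (3 * A) ^ 10 * 5 ^ 20 * 2 ^ 20, by positivity, fun R F => ?_⟩
  have h1 : ∀ᶠ D in dom, ∀ x ∈ F, ∀ d ∈ dirs, ∀ l ∈ Finset.range (R + 1),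
      avg (Om D) (fun h => ind (|h (pt x d l) - h x| = l)) ≤
        (1 + C₀ * (3 * A) ^ 10 * 5 ^ 20 * 2 ^ 20) / ((l : ℝ) + 1) ^ 16 := by
    rw [Filter.eventually_all_finset]
    intro x _
    rw [Filter.eventually_all_finset]
    intro d hd
    rw [Filter.eventually_all_finset]
    intro l _
    rcases Nat.eq_zero_or_pos l with rfl | hl
    · refine Filter.Eventually.of_forall fun D => (KPH3b_zero (Om D) x d).trans ?_
      simp only [Nat.cast_zero, zero_add, one_pow, div_one]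
      linarith
    · filter_upwards [KPH3b_one hA hC x d l hl (ha _ _) (hAb x d l hd) hmom] with D hD
      refine hD.trans ?_
      gcongr
      linarith
  filter_upwards [h1] with D hD
  exact fun x hx d hd l hl => hD x hx d hd l (Finset.mem_range.2 (by omega))

end KP
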