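import Pool.Agent.Helper58.KP.F
import Pool.Agent.Helper58.KP.H
import Pool.Agent.Helper27.GF.M5

/-!
The constant is positive.
-/

open Finset RP4 Filter Topology MeasureTheory

namespace KP

theorem mom20 : ∃ C : ℝ, 0 ≤ C ∧ ∀ D : Finset V, BdryPar D 0 → ∀ x ∈ D, ∀ y ∈ D,
      avg (Om D) (fun h => (((h x - h y : ℤ) : ℝ)) ^ 20) ≤
        C * (avg (Om D) (fun h => (((h x - h y : ℤ) : ℝ)) ^ 2) + 1) ^ 10 := by
  classical
  obtain ⟨C, hC, h⟩ := GF.moments 20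
  refine ⟨C * 3 ^ 20, by positivity, fun D hD x _ y _ => ?_⟩
  have hv : 0 ≤ avg (Om D) (fun h => (((h x - h y : ℤ) : ℝ)) ^ 2) :=
    avg_nonneg _ _ fun g => sq_nonneg _
  by_cases hxy : x = y
  · subst hxy
    have h0 : avg (Om D) (fun h => (((h x - h x : ℤ) : ℝ)) ^ 20) = 0 := by
      unfold avg
      simp
    rw [h0]
    positivity
  have h1 := h D {x, y} (fun z => if z = x then 1 else if z = y then -1 else 0) (Om_nonempty hD)
  have hl : ∀ g : V → ℤ, GF.lin {x, y} (fun z => if z = x then 1 else if z = y then -1 else 0) g =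
      ((g x - g y : ℤ) : ℝ) := by
    intro g
    unfold GF.lin
    rw [Finset.sum_pair hxy]
    have hyx : ¬ y = x := fun h => hxy h.symm
    simp only [if_true, if_neg hyx]
    push_cast
    ring
  have hm : ∑ z ∈ ({x, y} : Finset V), |(fun z => if z = x then (1 : ℝ) else if z = y then -1 else 0) z| = 2 := by
    rw [Finset.sum_pair hxy]
    have hyx : ¬ y = x := fun h => hxy h.symm
    simp only [if_true, if_neg hyx]
    norm_num
  rw [hm] at h1
  simp only [hl] at h1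
  have e1 : avg (Om D) (fun h => |((h x - h y : ℤ) : ℝ)| ^ 20) =
      avg (Om D) (fun h => (((h x - h y : ℤ) : ℝ)) ^ 20) := by
    congr 1
    funext g
    exact Even.pow_abs (by decide) _
  rw [e1] at h1
  refine h1.trans ?_
  rw [mul_assoc]
  refine mul_le_mul_of_nonneg_left ?_ hC
  set v := avg (Om D) (fun h => (((h x - h y : ℤ) : ℝ)) ^ 2) with hvd
  have h2 : Real.sqrt v + 2 ≤ 3 * Real.sqrt (v + 1) := by
    have h3 : Real.sqrt v ≤ Real.sqrt (v + 1) := Real.sqrt_le_sqrt (by linarith)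
    have h4 : 1 ≤ Real.sqrt (v + 1) := by
      rw [Real.one_le_sqrt]
      linarith
    linarith
  have h3 : Real.sqrt (v + 1) ^ 20 = (v + 1) ^ 10 := by
    rw [show (20 : ℕ) = 2 * 10 by norm_num, pow_mul, Real.sq_sqrt (by linarith)]
  calc (Real.sqrt v + 2) ^ 20 ≤ (3 * Real.sqrt (v + 1)) ^ 20 :=
        pow_le_pow_left₀ (by positivity) h2 20
    _ = 3 ^ 20 * (v + 1) ^ 10 := by rw [mul_pow, h3]

/-- `core_theorem` with a positive constant -/
theorem core_pos : ∃ (K : ℝ) (a : V → V → ℝ), 0 < K ∧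
    (∀ x y, Tendsto (fun D => avg (Om D) (fun h => (((h x - h y : ℤ) : ℝ)) ^ 2)) dom
      (𝓝 (a x y))) ∧
    (∀ ε > 0, ∃ R : ℝ, 1 < R ∧ ∀ x y : V, R ≤ elen (x - y) →
      |a x y / Real.log (elen (x - y)) - K / Real.pi| ≤ ε) ∧
    (∀ f : ℝ × ℝ → ℝ, ContDiff ℝ 1 f → HasCompactSupport f → ∫ y, f y = 0 → ∀ ε > 0,
      ∃ δ₀ > 0, ∀ δ : ℝ, 0 < δ → δ < δ₀ → ∀ s : Finset V,
        (∀ x : V, f (δ * x.1, δ * x.2) ≠ 0 → x ∈ s) →
        |(∑ x ∈ s, ∑ y ∈ s, wt δ f x * wt δ f y * ((a x 0 + a y 0 - a x y) / 2)) -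
          K * energy f| ≤ ε) ∧
    (∀ ε > 0, ∃ C : ℝ, ∀ D : Finset V, BdryPar D 0 → ∀ x ∈ D, ∀ v ∈ bdry D,
      avg (Om D) (fun h => (h x : ℝ) ^ 2) ≤ (K / Real.pi + ε) * Real.log (elen (x - v)) + C) := by
  obtain ⟨K, a, hK, ha, hlog, hp, hD⟩ := core_theorem
  obtain ⟨C, hC, hT⟩ := tail_input hK ha hlog mom20
  exact ⟨K, a, kp_pos hK ha hp hC hT, ha, hlog, hp, hD⟩

end KP
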