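import Pool.Agent.Helper58.KP.Defs

/-!
Tower geometry: raising an up tower gives a down tower from the other end; bijection on `Om D`.
-/

open Finset RP4

namespace KP

/-! ### A1 -/

lemma a1a_seg {x d : V} {l : ℕ} {j : ℤ} (hd : d ∈ dirs) :
    Seg x d l (pt x d j) ↔ 0 ≤ j ∧ j < l := by
  constructor
  · rintro ⟨i, h0, h1, h2⟩
    have h3 : i = j := by
      rcases mem_dirs.1 hd with rfl | rfl | rfl | rfl <;>
        · simp only [pt, Prod.mk.injEq] at h2
          omega
    subst h3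
    exact ⟨h0, h1⟩
  · rintro ⟨h0, h1⟩
    exact ⟨j, h0, h1, rfl⟩

lemma a1a_side {x d : V} {l : ℕ} {j k : ℤ} (hd : d ∈ dirs) (hk : k ≠ 0) :
    ¬ Seg x d l (pt (pt x d j) (prp d) k) := by
  rintro ⟨i, h0, h1, h2⟩
  rcases mem_dirs.1 hd with rfl | rfl | rfl | rfl <;>
    · simp only [pt, prp, Prod.mk.injEq] at h2
      omega

lemma a1a_rev (x d : V) (a i : ℤ) : pt (pt x d a) (nd d) i = pt x d (a - i) := by
  simp only [pt, nd, Prod.mk.injEq]
  constructor <;> ring

lemma a1a_prp (v d : V) (k : ℤ) : pt v (prp (nd d)) k = pt v (prp d) (-k) := by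
  simp only [pt, nd, prp, Prod.mk.injEq]
  constructor <;> ring

/-
`d ∈ dirs`.  The sites of the reversed tower are `pt (pt x d (l-1)) (nd d) i = pt x d (l-1-i)`.  Heights of `rz h` on the segment: `h x - j + 2`
at `pt x d j`; the side neighbours, `pt x d (-1)` and `pt x d l` are not in the segment (case distinction on `d`, `omega`).
Down = Up for `-rz h`: head value `-(h x - (l-1) + 2)`.
-/
theorem rz_down {h : V → ℤ} {x d : V} {l : ℕ} (hd : d ∈ dirs) (hu : Up h x d l) :
    Down (rz h x d l) (pt x d ((l : ℤ) - 1)) (nd d) l := by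
  have hl : (1 : ℤ) ≤ l := by exact_mod_cast hu.pos
  have hin : ∀ j : ℤ, 0 ≤ j → j < l → rz h x d l (pt x d j) = h x - j + 2 := by
    intro j h0 h1
    unfold rz
    rw [if_pos ((a1a_seg hd).2 ⟨h0, h1⟩), hu.site j h0 h1]
  have hs1 : ∀ j : ℤ, 0 ≤ j → j < l → rz h x d l (pt (pt x d j) (prp d) 1) = h x - j + 1 := by
    intro j h0 h1
    unfold rz
    rw [if_neg (a1a_side hd one_ne_zero), hu.side1 j h0 h1]
  have hs2 : ∀ j : ℤ, 0 ≤ j → j < l → rz h x d l (pt (pt x d j) (prp d) (-1)) = h x - j + 1 := by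
    intro j h0 h1
    unfold rz
    rw [if_neg (a1a_side hd (by norm_num)), hu.side2 j h0 h1]
  have hh : rz h x d l (pt x d (-1)) = h x + 1 := by
    unfold rz
    rw [if_neg (fun hc => absurd ((a1a_seg hd).1 hc).1 (by norm_num)), hu.head]
  have ht : rz h x d l (pt x d l) = h x - l + 2 := by
    unfold rz
    rw [if_neg (fun hc => absurd ((a1a_seg hd).1 hc).2 (lt_irrefl _)), hu.tail]
  have hy : rz h x d l (pt x d ((l : ℤ) - 1)) = h x - ((l : ℤ) - 1) + 2 :=
    hin _ (by omega) (by omega)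
  refine ⟨hu.pos, ?_, ?_, ?_, ?_, ?_⟩
  · intro i h0 h1
    simp only [a1a_rev]
    rw [hin _ (by omega) (by omega), hy]
    ring
  · intro i h0 h1
    simp only [a1a_rev, a1a_prp]
    rw [hs2 _ (by omega) (by omega), hy]
    ring
  · intro i h0 h1
    simp only [a1a_rev, a1a_prp, neg_neg]
    rw [hs1 _ (by omega) (by omega), hy]
    ring
  · simp only [a1a_rev]
    rw [show (l : ℤ) - 1 - -1 = l by ring, ht, hy]
    ring
  · simp only [a1a_rev]
    rw [show (l : ℤ) - 1 - l = -1 by ring, hh, hy]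
    ring

lemma a1a_lw (h : V → ℤ) (x d : V) (l : ℕ) : lw h x d l = fun v => -rz (fun w => -h w) x d l v := by
  funext v
  unfold lw rz
  split_ifs <;> ring

/-
From `rz_down` applied to `-h` (with `lw h = -rz (-h)`).
-/
theorem lw_up {h : V → ℤ} {x d : V} {l : ℕ} (hd : d ∈ dirs) (hu : Down h x d l) :
    Up (lw h x d l) (pt x d ((l : ℤ) - 1)) (nd d) l := by
  rw [a1a_lw]
  exact rz_down hd hu

private lemma A1b_pt (x d : V) (l : ℕ) (i : ℤ) :
    pt (pt x d ((l : ℤ) - 1)) (nd d) i = pt x d ((l : ℤ) - 1 - i) := by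
  unfold pt nd
  ext
  · simp only
    ring
  · simp only
    ring

/-
`pt (pt x d (l-1)) (nd d) i = pt x d (l-1-i)`.
-/
theorem seg_rev (x d : V) (l : ℕ) (v : V) : Seg (pt x d ((l : ℤ) - 1)) (nd d) l v ↔ Seg x d l v := by
  unfold Seg
  constructor
  · rintro ⟨i, h0, h1, rfl⟩
    exact ⟨(l : ℤ) - 1 - i, by omega, by omega, A1b_pt x d l i⟩
  · rintro ⟨i, h0, h1, rfl⟩
    refine ⟨(l : ℤ) - 1 - i, by omega, by omega, ?_⟩
    rw [A1b_pt]
    congr 1
    omega

theorem lw_rz (h : V → ℤ) (x d : V) (l : ℕ) :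
    lw (rz h x d l) (pt x d ((l : ℤ) - 1)) (nd d) l = h := by
  classical
  funext v
  unfold lw rz
  by_cases hv : Seg x d l v
  · rw [if_pos ((seg_rev x d l v).2 hv), if_pos hv]
    ring
  · rw [if_neg (fun h1 => hv ((seg_rev x d l v).1 h1)), if_neg hv]

theorem rz_lw (h : V → ℤ) (x d : V) (l : ℕ) :
    rz (lw h (pt x d ((l : ℤ) - 1)) (nd d) l) x d l = h := by
  classical
  funext v
  unfold lw rz
  by_cases hv : Seg x d l v
  · rw [if_pos hv]
    show (if Seg (pt x d ((l : ℤ) - 1)) (nd d) l v then h v - 2 else h v) + 2 = h v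
    rw [if_pos ((seg_rev x d l v).2 hv)]
    ring
  · rw [if_neg hv]
    exact if_neg (fun h1 => hv ((seg_rev x d l v).1 h1))

/-! ### A2 -/

private lemma A2_nb {u v d : V} (hd : d ∈ dirs) (ha : Adj u v) :
    v = pt u d 1 ∨ v = pt u d (-1) ∨ v = pt u (prp d) 1 ∨ v = pt u (prp d) (-1) := by
  obtain ⟨u1, u2⟩ := u
  obtain ⟨v1, v2⟩ := v
  unfold Adj at ha
  dsimp only at ha
  rcases mem_dirs.1 hd with rfl | rfl | rfl | rfl <;>
    simp only [pt, prp, Prod.mk.injEq] <;>
    rcases abs_cases (u1 - v1) with ⟨h1, _⟩ | ⟨h1, _⟩ <;>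
    rcases abs_cases (u2 - v2) with ⟨h3, _⟩ | ⟨h3, _⟩ <;> rw [h1, h3] at ha <;> omega

private lemma A2_pt (x d : V) (i j : ℤ) : pt (pt x d i) d j = pt x d (i + j) := by
  unfold pt
  ext
  · dsimp only
    ring
  · dsimp only
    ring

private lemma A2_adj {h : V → ℤ} {x d u v : V} {l : ℕ} (hd : d ∈ dirs) (hu : Up h x d l)
    (h1 : Seg x d l u) (h2 : ¬ Seg x d l v) (ha : Adj u v) : h v = h u + 1 := by
  obtain ⟨i, hi0, hil, rfl⟩ := h1
  have hs := hu.site i hi0 hil
  rcases A2_nb hd ha with e | e | e | e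
  · rw [A2_pt] at e
    have hi : i + 1 = l := by
      by_contra hne
      exact h2 ⟨i + 1, by omega, by omega, e⟩
    rw [hi] at e
    rw [e, hu.tail, hs]
    omega
  · rw [A2_pt] at e
    have hi : i = 0 := by
      by_contra hne
      exact h2 ⟨i + -1, by omega, by omega, e⟩
    subst hi
    have e' : v = pt x d (-1) := by
      rw [e]
      norm_num
    rw [e', hu.head, hs]
    omega
  · rw [e, hu.side1 i hi0 hil, hs]
  · rw [e, hu.side2 i hi0 hil, hs]

private lemma A2_symm {u v : V} (h : Adj u v) : Adj v u := by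
  unfold Adj at h ⊢
  rw [abs_sub_comm v.1, abs_sub_comm v.2]
  exact h

/-
`off`: a vertex outside `D` is not in the segment.  `par`: adding `2`.  `step` for `u, v ∈ D` adjacent: if both or none are in the segment use
`hh.step`; if `u = pt x d i` is in the segment and `v` is not, then `v` is one of the four neighbours of `u` (case distinction on `d` and on the
direction of `v - u`): side neighbour (fields `side1`, `side2`), `pt x d (-1)` if `i = 0` (field `head`), `pt x d l` if `i = l - 1` (field `tail`); in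
all cases `h v = h u + 1`.  The boundary is not touched by `hs`.
-/
theorem rz_mem {D : Finset V} {h : V → ℤ} {x d : V} {l : ℕ} (hd : d ∈ dirs) (hh : h ∈ Om D)
    (hu : Up h x d l) (hs : ∀ v, Seg x d l v → v ∈ D ∧ v ∉ bdry D) : rz h x d l ∈ Om D := by
  obtain ⟨hhom, hb⟩ := mem_Om.1 hh
  have hin : ∀ v, Seg x d l v → rz h x d l v = h v + 2 := fun v hv => if_pos hv
  have hout : ∀ v, ¬ Seg x d l v → rz h x d l v = h v := fun v hv => if_neg hv
  refine mem_Om.2 ⟨⟨fun v hv => ?_, fun v hv => ?_, fun u hu' v hv ha => ?_⟩, fun v hv => ?_⟩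
  · rw [hout v fun h => hv (hs v h).1]
    exact hhom.off v hv
  · have hp := hhom.par v hv
    by_cases hsv : Seg x d l v
    · rw [hin v hsv]
      have e : h v + 2 - RP4.par v - 0 = (h v - RP4.par v - 0) + 2 := by ring
      rw [e]
      exact hp.add even_two
    · rw [hout v hsv]
      exact hp
  · have hst := hhom.step u hu' v hv ha
    by_cases h1 : Seg x d l u
    · by_cases h2 : Seg x d l v
      · rw [hin u h1, hin v h2]
        have e : h u + 2 - (h v + 2) = h u - h v := by ring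
        rw [e]
        exact hst
      · rw [hin u h1, hout v h2, A2_adj hd hu h1 h2 ha]
        have e : h u + 2 - (h u + 1) = 1 := by ring
        rw [e]
        rfl
    · by_cases h2 : Seg x d l v
      · rw [hin v h2, hout u h1, A2_adj hd hu h2 h1 (A2_symm ha)]
        have e : h v + 1 - (h v + 2) = -1 := by ring
        rw [e]
        rfl
      · rw [hout u h1, hout v h2]
        exact hst
  · rw [hout v fun h => (hs v h).2 hv]
    exact hb v hv

/-
By `rz_mem` for `-h` (`neg_mem_Zs`, A03s.lean; `lw h = -rz (-h)`).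
-/
theorem lw_mem {D : Finset V} {h : V → ℤ} {x d : V} {l : ℕ} (hd : d ∈ dirs) (hh : h ∈ Om D)
    (hu : Down h x d l) (hs : ∀ v, Seg x d l v → v ∈ D ∧ v ∉ bdry D) : lw h x d l ∈ Om D := by
  have hneg : (fun v => -h v) ∈ Om D := neg_mem_Zs (Subset.refl _) hh
  have h1 := rz_mem hd hneg hu hs
  have h2 : -(rz (fun v => -h v) x d l) ∈ Om D := neg_mem_Zs (Subset.refl _) h1
  have e : lw h x d l = -(rz (fun v => -h v) x d l) := by
    funext v
    rw [Pi.neg_apply]
    unfold lw rz
    split_ifs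
    · ring
    · ring
  rw [e]
  exact h2

/-! ### A3 -/

/-
`Finset.sum_nbij'` with `h ↦ rz h x d l` and `g ↦ lw g (pt x d (l-1)) (nd d) l` between the filtered sets `{h ∈ Om D | Up h x d l}` and
`{g ∈ Om D | Down g (pt x d (l-1)) (nd d) l}`: `rz_mem`, `lw_mem`, `rz_down`, `lw_up` (note `nd (nd d) = d`, `pt (pt x d (l-1)) (nd d) (l-1) = x`),
`lw_rz`, `rz_lw`, `seg_rev`.
-/
theorem ibp (D : Finset V) (x d : V) (l : ℕ) (hd : d ∈ dirs)
    (hs : ∀ v, Seg x d l v → v ∈ D ∧ v ∉ bdry D) (F : (V → ℤ) → ℝ) :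
    ∑ h ∈ Om D, ind (Up h x d l) * F (rz h x d l) =
      ∑ h ∈ Om D, ind (Down h (pt x d ((l : ℤ) - 1)) (nd d) l) * F h := by
  classical
  have hnn : nd (nd d) = d := by
    unfold nd
    ext <;> simp
  have hpp : pt (pt x d ((l : ℤ) - 1)) (nd d) ((l : ℤ) - 1) = x := by
    unfold pt nd
    ext
    · simp only
      ring
    · simp only
      ring
  have hd' : nd d ∈ dirs := by
    rw [mem_dirs] at hd ⊢
    rcases hd with rfl | rfl | rfl | rfl <;> simp [nd]
  have e1 : ∑ h ∈ Om D, ind (Up h x d l) * F (rz h x d l) =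
      ∑ h ∈ (Om D).filter (fun h => Up h x d l), F (rz h x d l) := by
    rw [Finset.sum_filter]
    refine Finset.sum_congr rfl fun h _ => ?_
    unfold ind
    split_ifs <;> simp
  have e2 : ∑ h ∈ Om D, ind (Down h (pt x d ((l : ℤ) - 1)) (nd d) l) * F h =
      ∑ h ∈ (Om D).filter (fun h => Down h (pt x d ((l : ℤ) - 1)) (nd d) l), F h := by
    rw [Finset.sum_filter]
    refine Finset.sum_congr rfl fun h _ => ?_
    unfold ind
    split_ifs <;> simp
  rw [e1, e2]
  refine Finset.sum_nbij' (fun h => rz h x d l)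
    (fun g => lw g (pt x d ((l : ℤ) - 1)) (nd d) l) ?_ ?_ ?_ ?_ ?_
  · intro h hh
    rw [Finset.mem_filter] at hh ⊢
    exact ⟨rz_mem hd hh.1 hh.2 hs, rz_down hd hh.2⟩
  · intro g hg
    rw [Finset.mem_filter] at hg ⊢
    refine ⟨lw_mem hd' hg.1 hg.2 fun v hv => hs v ((seg_rev x d l v).1 hv), ?_⟩
    have h1 := lw_up hd' hg.2
    rwa [hpp, hnn] at h1
  · intro h _
    exact lw_rz h x d l
  · intro g _
    exact rz_lw g x d l
  · intro h _
    rfl

end KP
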