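import Pool.Agent.Helper58.KP.A

/-!
Charges of the heads, locality, integration by parts for the drift.
-/

open Finset RP4

namespace KP

/-! ### B1: uniqueness of the tower with a given head -/

/-
If `l < l'` then `h (pt x d l) = h x - l + 2` by `tail` of the first and `= h x - l` by `site` of the second.
-/
theorem up_len_unique {h : V → ℤ} {x d : V} {l l' : ℕ} (h1 : Up h x d l) (h2 : Up h x d l') : l = l' := by
  rcases lt_trichotomy l l' with h | h | h
  · have a1 := h1.tail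
    have a2 := h2.site (l : ℤ) (by omega) (by omega)
    omega
  · exact h
  · have a1 := h2.tail
    have a2 := h1.site (l' : ℤ) (by omega) (by omega)
    omega

/-
`l ≥ 2`: `h (pt x d 1) = h x - 1`.  If `d' ≠ d` (both in `dirs`) then `pt x d 1` is `pt x d' (-1)` or `pt (pt x d' 0) (prp d') (±1)`, so
`h (pt x d 1) = h x + 1`.
-/
theorem up_dir_unique {h : V → ℤ} {x d d' : V} {l l' : ℕ} (hd : d ∈ dirs) (hd' : d' ∈ dirs) (hl : 2 ≤ l)
    (h1 : Up h x d l) (h2 : Up h x d' l') : d' = d := by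
  have a1 := h1.site 1 (by norm_num) (by omega)
  have hp := h2.pos
  have b0 := h2.head
  have b1 := h2.side1 0 le_rfl (by omega)
  have b2 := h2.side2 0 le_rfl (by omega)
  rw [mem_dirs] at hd hd'
  rcases hd with rfl | rfl | rfl | rfl <;> rcases hd' with rfl | rfl | rfl | rfl <;>
    first
    | rfl
    | (exfalso
       simp only [pt, prp, one_mul, mul_one, mul_zero, zero_mul, add_zero, neg_mul, mul_neg,
         neg_neg, neg_zero, sub_zero] at a1 b0 b1 b2
       omega)

/-! ### B2: the tower exists or the run is long -/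

lemma b2_pt0 (x d : V) : pt x d 0 = x := by
  simp [pt]

lemma b2_dist1 {x d : V} (hd : d ∈ dirs) (i : ℤ) : dist1 x (pt x d i) = |i| := by
  rcases mem_dirs.1 hd with rfl | rfl | rfl | rfl <;> simp [dist1, pt]

lemma b2_dist2 {x d : V} (hd : d ∈ dirs) (i s : ℤ) : dist1 x (pt (pt x d i) (prp d) s) = |i| + |s| := by
  rcases mem_dirs.1 hd with rfl | rfl | rfl | rfl <;> simp [dist1, pt, prp, add_comm]

lemma b2_adj1 {x d : V} (hd : d ∈ dirs) (i : ℤ) : Adj (pt x d i) (pt x d (i + 1)) := by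
  rcases mem_dirs.1 hd with rfl | rfl | rfl | rfl <;> simp [Adj, pt]

lemma b2_adj2 {x d : V} (hd : d ∈ dirs) (i s : ℤ) :
    Adj (pt (pt x d i) (prp d) s) (pt (pt x d (i + 1)) (prp d) s) := by
  rcases mem_dirs.1 hd with rfl | rfl | rfl | rfl <;> simp [Adj, pt, prp]

lemma b2_adj3 {x d : V} (hd : d ∈ dirs) {s : ℤ} (i : ℤ) (hs : s = 1 ∨ s = -1) :
    Adj (pt x d i) (pt (pt x d i) (prp d) s) := by
  rcases hs with rfl | rfl <;> rcases mem_dirs.1 hd with rfl | rfl | rfl | rfl <;> simp [Adj, pt, prp]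

/-- one step of the run -/
lemma b2_next {h : V → ℤ} {x d : V} {R n : ℕ} (hd : d ∈ dirs) (hst : Unit' h x (R + 2))
    (h0 : h (pt x d (-1)) = h x + 1) (h1 : h (pt x d 1) = h x - 1)
    (hno : ¬ ∃ l, 2 ≤ l ∧ l ≤ R ∧ Up h x d l) (hn : n < R)
    (hrun : ∀ i : ℤ, 0 ≤ i → i ≤ n →
      h (pt x d i) = h x - i ∧ h (pt (pt x d i) (prp d) 1) = h x - i + 1 ∧
        h (pt (pt x d i) (prp d) (-1)) = h x - i + 1) :
    h (pt x d ((n : ℤ) + 1)) = h x - ((n : ℤ) + 1) := by
  rcases Nat.eq_zero_or_pos n with rfl | hpos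
  · push_cast
    exact h1
  obtain ⟨ha, -, -⟩ := hrun n (by positivity) le_rfl
  have e1 := hst (pt x d n) (pt x d ((n : ℤ) + 1)) (by rw [b2_dist1 hd]; simp; omega)
    (by rw [b2_dist1 hd, abs_of_nonneg (by positivity)]; omega) (b2_adj1 hd n)
  rw [ha] at e1
  rcases abs_eq (by norm_num : (0 : ℤ) ≤ 1) |>.1 e1 with e1 | e1
  · omega
  exfalso
  refine hno ⟨n + 1, by omega, by omega, ⟨by omega, ?_, ?_, ?_, h0, ?_⟩⟩
  · intro i hi0 hi1
    exact (hrun i hi0 (by push_cast at hi1; omega)).1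
  · intro i hi0 hi1
    exact (hrun i hi0 (by push_cast at hi1; omega)).2.1
  · intro i hi0 hi1
    exact (hrun i hi0 (by push_cast at hi1; omega)).2.2
  · push_cast
    omega

/-
`h (pt x d (-1)) = h x + 1`, `h (pt x d 1) = h x - 1`, side neighbours of `x` one higher.  Suppose there is no tower of length `≤ R` in direction `d`.
Induction on `i < R` (`i = 0` trivial): `h (pt x d i) = h x - i`, both side neighbours of `pt x d i` are `h x - i + 1`.  Step `i → i + 1 ≤ R`: `pt x d (i+1)`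
is `h x - i ± 1`; if it is `h x - i + 1` then `Up h x d (i + 1)` holds (`i + 1 ≥ 1`, `i ≥ 1` as `h (pt x d 1) = h x - 1`), contradiction; so
it is `h x - (i+1)`; the side neighbour of `pt x d (i+1)` differs by one from it and by one from the side neighbour of `pt x d i` (height
`h x - i + 1`), so it is `h x - i = h x - (i+1) + 1`.  At the end `h (pt x d R) = h x - R`.
-/
theorem up_or_long {h : V → ℤ} {x d : V} {R : ℕ} (hR : 1 ≤ R) (hd : d ∈ dirs) (hst : Unit' h x (R + 2))
    (h0 : h (pt x d (-1)) = h x + 1) (h1 : h (pt x d 1) = h x - 1)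
    (h2 : h (pt x (prp d) 1) = h x + 1) (h3 : h (pt x (prp d) (-1)) = h x + 1) :
    (∃ l, 2 ≤ l ∧ l ≤ R ∧ Up h x d l) ∨ h (pt x d R) = h x - R := by
  by_cases hno : ∃ l, 2 ≤ l ∧ l ≤ R ∧ Up h x d l
  · exact Or.inl hno
  right
  have hrun : ∀ n : ℕ, n < R → ∀ i : ℤ, 0 ≤ i → i ≤ n →
      h (pt x d i) = h x - i ∧ h (pt (pt x d i) (prp d) 1) = h x - i + 1 ∧
        h (pt (pt x d i) (prp d) (-1)) = h x - i + 1 := by
    intro n
    induction n with
    | zero =>
      intro _ i hi0 hi1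
      have hi : i = 0 := by
        push_cast at hi1
        omega
      subst hi
      refine ⟨by rw [b2_pt0]; ring, by rw [b2_pt0, h2]; ring, by rw [b2_pt0, h3]; ring⟩
    | succ n ih =>
      intro hn i hi0 hi1
      have hnR : n < R := by omega
      by_cases hin : i ≤ n
      · exact ih hnR i hi0 hin
      have hi : i = (n : ℤ) + 1 := by
        push_cast at hi1
        omega
      have hstep := b2_next hd hst h0 h1 hno hnR (ih hnR)
      obtain ⟨ha, hb, hc⟩ := ih hnR n (by positivity) le_rfl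
      rw [hi]
      refine ⟨hstep, ?_, ?_⟩
      · have e1 := hst (pt (pt x d n) (prp d) 1) (pt (pt x d ((n : ℤ) + 1)) (prp d) 1)
          (by rw [b2_dist2 hd]; simp; omega) (by rw [b2_dist2 hd, abs_of_nonneg (by positivity)]; simp; omega)
          (b2_adj2 hd n 1)
        have e2 := hst (pt x d ((n : ℤ) + 1)) (pt (pt x d ((n : ℤ) + 1)) (prp d) 1)
          (by rw [b2_dist1 hd, abs_of_nonneg (by positivity)]; omega)
          (by rw [b2_dist2 hd, abs_of_nonneg (by positivity)]; simp; omega)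
          (b2_adj3 hd _ (Or.inl rfl))
        rw [hb] at e1
        rw [hstep] at e2
        rcases abs_eq (by norm_num : (0 : ℤ) ≤ 1) |>.1 e1 with e1 | e1 <;>
          rcases abs_eq (by norm_num : (0 : ℤ) ≤ 1) |>.1 e2 with e2 | e2 <;> omega
      · have e1 := hst (pt (pt x d n) (prp d) (-1)) (pt (pt x d ((n : ℤ) + 1)) (prp d) (-1))
          (by rw [b2_dist2 hd]; simp; omega) (by rw [b2_dist2 hd, abs_of_nonneg (by positivity)]; simp; omega)
          (b2_adj2 hd n (-1))
        have e2 := hst (pt x d ((n : ℤ) + 1)) (pt (pt x d ((n : ℤ) + 1)) (prp d) (-1))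
          (by rw [b2_dist1 hd, abs_of_nonneg (by positivity)]; omega)
          (by rw [b2_dist2 hd, abs_of_nonneg (by positivity)]; simp; omega)
          (b2_adj3 hd _ (Or.inr rfl))
        rw [hc] at e1
        rw [hstep] at e2
        rcases abs_eq (by norm_num : (0 : ℤ) ≤ 1) |>.1 e1 with e1 | e1 <;>
          rcases abs_eq (by norm_num : (0 : ℤ) ≤ 1) |>.1 e2 with e2 | e2 <;> omega
  have hlast := b2_next hd hst h0 h1 hno (n := R - 1) (by omega) (hrun (R - 1) (by omega))
  have hcast : (((R - 1 : ℕ) : ℤ) + 1) = R := by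
    push_cast [Nat.cast_sub hR]
    ring
  rw [hcast] at hlast
  exact hlast

/-! ### B3: the charge of a head -/

private lemma B3a_pt_zero (x d : V) : pt x d 0 = x := by
  simp [pt]

private lemma B3a_ind_pos {p : Prop} (h : p) : ind p = 1 := by
  unfold ind
  rw [if_pos h]

private lemma B3a_ind_neg {p : Prop} (h : ¬ p) : ind p = 0 := by
  unfold ind
  rw [if_neg h]

/-- charge of the towers of one direction -/
private lemma B3a_dir {h : V → ℤ} {x d : V} {R : ℕ} (hR : 1 ≤ R) (hd : d ∈ dirs)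
    (hst : Unit' h x (R + 2)) {e₀ e₁ e₂ e₃ : ℤ} (h₀ : h (pt x d 1) = h x + e₀)
    (h₁ : h (pt x d (-1)) = h x + e₁) (h₂ : h (pt x (prp d) 1) = h x + e₂)
    (h₃ : h (pt x (prp d) (-1)) = h x + e₃) :
    (¬ (e₁ = 1 ∧ e₂ = 1 ∧ e₃ = 1) →
      ∑ l ∈ Icc 1 R, (l : ℝ) * (2 * rho l * ind (Up h x d l)) = 0) ∧
    (e₁ = 1 → e₂ = 1 → e₃ = 1 → e₀ = 1 →
      ∑ l ∈ Icc 1 R, (l : ℝ) * (2 * rho l * ind (Up h x d l)) = 1) ∧
    (e₁ = 1 → e₂ = 1 → e₃ = 1 → e₀ = -1 →
      ∑ l ∈ Icc 1 R, (l : ℝ) * (2 * rho l * ind (Up h x d l)) ≤ 2 ∧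
      2 - 2 * ind (|h (pt x d R) - h x| = R) ≤
        ∑ l ∈ Icc 1 R, (l : ℝ) * (2 * rho l * ind (Up h x d l))) := by
  have key : ∀ l, Up h x d l → e₁ = 1 ∧ e₂ = 1 ∧ e₃ = 1 := by
    intro l hl
    have hpos : (0 : ℤ) < l := by exact_mod_cast hl.pos
    have a1 := hl.head
    have a2 := hl.side1 0 le_rfl hpos
    have a3 := hl.side2 0 le_rfl hpos
    rw [B3a_pt_zero] at a2 a3
    omega
  have hR1 : 1 ∈ Icc 1 R := Finset.mem_Icc.2 ⟨le_rfl, hR⟩
  refine ⟨fun hn => ?_, fun h1 h2 h3 h0 => ?_, fun h1 h2 h3 h0 => ?_⟩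
  · refine Finset.sum_eq_zero fun l _ => ?_
    rw [B3a_ind_neg (fun hl => hn (key l hl))]
    ring
  · subst h1 h2 h3 h0
    have hup : Up h x d 1 := by
      refine ⟨le_rfl, ?_, ?_, ?_, h₁, ?_⟩
      · intro i h4 h5
        have h6 : i = 0 := by
          push_cast at h5
          omega
        rw [h6, B3a_pt_zero]
        ring
      · intro i h4 h5
        have h6 : i = 0 := by
          push_cast at h5
          omega
        rw [h6, B3a_pt_zero, h₂]
        ring
      · intro i h4 h5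
        have h6 : i = 0 := by
          push_cast at h5
          omega
        rw [h6, B3a_pt_zero, h₃]
        ring
      · rw [Nat.cast_one, h₀]
        ring
    rw [Finset.sum_eq_single_of_mem 1 hR1]
    · rw [B3a_ind_pos hup]
      unfold rho
      norm_num
    · intro l _ hl1
      rw [B3a_ind_neg (fun hl => hl1 (up_len_unique hl hup))]
      ring
  · subst h1 h2 h3 h0
    have hno : ¬ Up h x d 1 := by
      intro hl
      have a1 := hl.tail
      rw [Nat.cast_one, h₀] at a1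
      omega
    by_cases hex : ∃ l ∈ Icc 1 R, Up h x d l
    · obtain ⟨l, hlm, hl⟩ := hex
      have hl1 : l ≠ 1 := fun e => hno (e ▸ hl)
      have hl0 : (l : ℝ) ≠ 0 := by
        have := hl.pos
        positivity
      have hsum : ∑ l ∈ Icc 1 R, (l : ℝ) * (2 * rho l * ind (Up h x d l)) = 2 := by
        rw [Finset.sum_eq_single_of_mem l hlm]
        · rw [B3a_ind_pos hl]
          unfold rho
          rw [if_neg hl1]
          field_simp
        · intro l' _ hl'
          rw [B3a_ind_neg (fun hl'' => hl' (up_len_unique hl'' hl))]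
          ring
      rw [hsum]
      have := ind_nonneg (|h (pt x d R) - h x| = R)
      exact ⟨le_rfl, by linarith⟩
    · have hsum : ∑ l ∈ Icc 1 R, (l : ℝ) * (2 * rho l * ind (Up h x d l)) = 0 := by
        refine Finset.sum_eq_zero fun l hlm => ?_
        rw [B3a_ind_neg (fun hl => hex ⟨l, hlm, hl⟩)]
        ring
      have hlong : h (pt x d R) = h x - R := by
        rcases up_or_long hR hd hst h₁ (by rw [h₀]; ring) h₂ h₃ with ⟨l, h4, h5, h6⟩ | h4
        · exact absurd ⟨l, Finset.mem_Icc.2 ⟨by omega, h5⟩, h6⟩ hex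
        · exact h4
      have hind : ind (|h (pt x d R) - h x| = R) = 1 := by
        refine B3a_ind_pos ?_
        rw [hlong, show h x - (R : ℤ) - h x = -(R : ℤ) by ring, abs_neg]
        exact abs_of_nonneg (Int.natCast_nonneg R)
      rw [hsum, hind]
      norm_num

private lemma B3a_nbr {h : V → ℤ} {x y : V} {R : ℕ} (hst : Unit' h x (R + 2)) (hy : Adj x y) :
    ∃ e : ℤ, h y = h x + e ∧ (e = 1 ∨ e = -1) := by
  have h1 : |h x - h y| = 1 := by
    refine hst x y ?_ ?_ hy
    · unfold dist1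
      simp
      positivity
    · have h2 : dist1 x y = 1 := hy
      rw [h2]
      omega
  refine ⟨h y - h x, by ring, ?_⟩
  rcases abs_eq (zero_le_one) |>.1 h1 with h2 | h2
  · right
    omega
  · left
    omega

/-
The four neighbours of `x` are `h x ± 1`, so `Lap h x ∈ {-4, -2, 0, 2, 4}`.
`Lap = 4` (all four higher): `Up h x d 1` for all four `d` (each contributes `1 * (2 * (1/2) * 1) = 1`), none for `l ≥ 2` (`h (pt x d 1) = h x - 1` fails); `chgU = 4`.
`Lap = 2` (three higher, lower one in direction `d`): `Up h x d' l` implies `d' = d`, `l ≥ 2`, and at most one `l` (`up_len_unique`): `chgU ∈ {0, 2}`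
(`l * (2 * (1/l)) = 2`), and if it is `0` then `lng ≥ 1` by `up_or_long`.
`Lap ≤ 0`: at most two neighbours are higher, no `Up` (three neighbours `pt x d (-1)`, `pt (pt x d 0) (prp d) (±1)` are higher in an up tower): `chgU = 0`.
-/
theorem chgU_bounds {h : V → ℤ} {x : V} {R : ℕ} (hR : 1 ≤ R) (hst : Unit' h x (R + 2)) :
    max (Lap h x : ℝ) 0 - 2 * lng R h x ≤ chgU R h x ∧ chgU R h x ≤ max (Lap h x : ℝ) 0 := by
  obtain ⟨eE, hE, hE'⟩ := B3a_nbr (y := (x.1 + 1, x.2)) hst (by simp [Adj])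
  obtain ⟨eW, hW, hW'⟩ := B3a_nbr (y := (x.1 - 1, x.2)) hst (by simp [Adj])
  obtain ⟨eN, hN, hN'⟩ := B3a_nbr (y := (x.1, x.2 + 1)) hst (by simp [Adj])
  obtain ⟨eS, hS, hS'⟩ := B3a_nbr (y := (x.1, x.2 - 1)) hst (by simp [Adj])
  have pE : pt x (1, 0) 1 = (x.1 + 1, x.2) := by simp [pt]
  have pW : pt x (1, 0) (-1) = (x.1 - 1, x.2) := by simp [pt, sub_eq_add_neg]
  have pN : pt x (0, 1) 1 = (x.1, x.2 + 1) := by simp [pt]
  have pS : pt x (0, 1) (-1) = (x.1, x.2 - 1) := by simp [pt, sub_eq_add_neg]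
  have qE : pt x (-1, 0) (-1) = (x.1 + 1, x.2) := by simp [pt]
  have qW : pt x (-1, 0) 1 = (x.1 - 1, x.2) := by simp [pt, sub_eq_add_neg]
  have qN : pt x (0, -1) (-1) = (x.1, x.2 + 1) := by simp [pt]
  have qS : pt x (0, -1) 1 = (x.1, x.2 - 1) := by simp [pt, sub_eq_add_neg]
  obtain ⟨a1, a2, a3⟩ := B3a_dir (d := (1, 0)) hR (by simp [dirs]) hst (by rw [pE]; exact hE)
    (by rw [pW]; exact hW) (by change h (pt x (0, 1) 1) = _; rw [pN]; exact hN)
    (by change h (pt x (0, 1) (-1)) = _; rw [pS]; exact hS)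
  obtain ⟨b1, b2, b3⟩ := B3a_dir (d := (-1, 0)) hR (by simp [dirs]) hst (by rw [qW]; exact hW)
    (by rw [qE]; exact hE) (by change h (pt x (0, -1) 1) = _; rw [qS]; exact hS)
    (by change h (pt x (0, -1) (-1)) = _; rw [qN]; exact hN)
  obtain ⟨c1, c2, c3⟩ := B3a_dir (d := (0, 1)) hR (by simp [dirs]) hst (by rw [pN]; exact hN)
    (by rw [pS]; exact hS) (by change h (pt x (1, 0) 1) = _; rw [pE]; exact hE)
    (by change h (pt x (1, 0) (-1)) = _; rw [pW]; exact hW)
  obtain ⟨d1, d2, d3⟩ := B3a_dir (d := (0, -1)) hR (by simp [dirs]) hst (by rw [qS]; exact hS)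
    (by rw [qN]; exact hN) (by change h (pt x (-1, 0) 1) = _; rw [qW]; exact hW)
    (by change h (pt x (-1, 0) (-1)) = _; rw [qE]; exact hE)
  have hL : (Lap h x : ℝ) = (eE : ℝ) + eW + eN + eS := by
    unfold Lap
    rw [hE, hW, hN, hS]
    push_cast
    ring
  have hsum : ∀ f : V → ℝ, ∑ d ∈ dirs, f d = f (1, 0) + f (-1, 0) + f (0, 1) + f (0, -1) := by
    intro f
    unfold dirs
    rw [Finset.sum_insert (by decide), Finset.sum_insert (by decide),
      Finset.sum_insert (by decide), Finset.sum_singleton]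
    ring
  unfold chgU lng
  rw [hL, hsum, hsum]
  have i1 := ind_nonneg (|h (pt x (1, 0) R) - h x| = R)
  have i2 := ind_nonneg (|h (pt x (-1, 0) R) - h x| = R)
  have i3 := ind_nonneg (|h (pt x (0, 1) R) - h x| = R)
  have i4 := ind_nonneg (|h (pt x (0, -1) R) - h x| = R)
  generalize ∑ l ∈ Icc 1 R, (l : ℝ) * (2 * rho l * ind (Up h x (1, 0) l)) = A at *
  generalize ∑ l ∈ Icc 1 R, (l : ℝ) * (2 * rho l * ind (Up h x (-1, 0) l)) = B at *
  generalize ∑ l ∈ Icc 1 R, (l : ℝ) * (2 * rho l * ind (Up h x (0, 1) l)) = C at *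
  generalize ∑ l ∈ Icc 1 R, (l : ℝ) * (2 * rho l * ind (Up h x (0, -1) l)) = D at *
  generalize ind (|h (pt x (1, 0) R) - h x| = R) = I1 at *
  generalize ind (|h (pt x (-1, 0) R) - h x| = R) = I2 at *
  generalize ind (|h (pt x (0, 1) R) - h x| = R) = I3 at *
  generalize ind (|h (pt x (0, -1) R) - h x| = R) = I4 at *
  clear hE hW hN hS hL
  rcases hE' with rfl | rfl <;> rcases hW' with rfl | rfl <;> rcases hN' with rfl | rfl <;>
    rcases hS' with rfl | rfl <;>
    norm_num at a1 a2 a3 b1 b2 b3 c1 c2 c3 d1 d2 d3 ⊢ <;>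
    constructor <;> linarith

/-
`chg R h x = chgU R h x - chgU R (-h) x` and `Lap (-h) = -Lap h`, `lng R (-h) = lng R h`; `chgU_bounds` for `h` and `-h`.
-/
theorem chg_sub_lap {h : V → ℤ} {x : V} {R : ℕ} (hR : 1 ≤ R) (hst : Unit' h x (R + 2)) :
    |chg R h x - Lap h x| ≤ 2 * lng R h x := by
  have hst' : Unit' (fun v => -h v) x (R + 2) := by
    intro u v hu hv ha
    have h1 := hst u v hu hv ha
    have e1 : -h u - -h v = -(h u - h v) := by ring
    show |-h u - -h v| = 1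
    rw [e1, abs_neg, h1]
  have hlap : Lap (fun v => -h v) x = -Lap h x := by
    unfold Lap
    ring
  have hlng : lng R (fun v => -h v) x = lng R h x := by
    unfold lng
    refine Finset.sum_congr rfl fun d _ => ?_
    have e1 : -h (pt x d R) - -h x = -(h (pt x d R) - h x) := by ring
    show ind (|-h (pt x d R) - -h x| = R) = ind (|h (pt x d R) - h x| = R)
    rw [e1, abs_neg]
  have hchg : chg R h x = chgU R h x - chgU R (fun v => -h v) x := by
    unfold chg chgU
    rw [← Finset.sum_sub_distrib]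
    refine Finset.sum_congr rfl fun d _ => ?_
    rw [← Finset.sum_sub_distrib]
    refine Finset.sum_congr rfl fun l _ => ?_
    unfold tw Down
    ring
  obtain ⟨a1, a2⟩ := chgU_bounds hR hst
  obtain ⟨b1, b2⟩ := chgU_bounds hR hst'
  rw [hlap, hlng] at b1
  rw [hlap] at b2
  push_cast at b1 b2
  have hm : max (Lap h x : ℝ) 0 - max (-(Lap h x : ℝ)) 0 = Lap h x := by
    rcases le_total (Lap h x : ℝ) 0 with h0 | h0
    · rw [max_eq_right h0, max_eq_left (by linarith)]
      ring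
    · rw [max_eq_left h0, max_eq_right (by linarith)]
      ring
  rw [hchg, abs_le]
  constructor <;> linarith

/-
The right side is `|Lap h x|`, and `|Lap h x| ≤ 4` (four neighbours at `h x ± 1`).
-/
theorem lap_sq_le {h : V → ℤ} {x : V} (hst : Unit' h x 2) :
    (Lap h x : ℝ) ^ 2 / 4 ≤ max (Lap h x : ℝ) 0 + max (-(Lap h x : ℝ)) 0 := by
  have hn : ∀ y : V, dist1 x y = 1 → |h y - h x| = 1 := by
    intro y hy
    have h0 : dist1 x x = 0 := by simp [dist1]
    have hadj : Adj y x := by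
      unfold Adj
      unfold dist1 at hy
      rw [abs_sub_comm y.1, abs_sub_comm y.2]
      exact hy
    exact hst y x (by omega) (by omega) hadj
  have n1 := hn (x.1 + 1, x.2) (by simp [dist1])
  have n2 := hn (x.1 - 1, x.2) (by simp [dist1])
  have n3 := hn (x.1, x.2 + 1) (by simp [dist1])
  have n4 := hn (x.1, x.2 - 1) (by simp [dist1])
  have hL : |Lap h x| ≤ 4 := by
    rw [abs_eq (by norm_num)] at n1 n2 n3 n4
    unfold Lap
    rw [abs_le]
    constructor <;> omega
  have hLr : |(Lap h x : ℝ)| ≤ 4 := by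
    have e : ((|Lap h x| : ℤ) : ℝ) ≤ ((4 : ℤ) : ℝ) := by exact_mod_cast hL
    rw [Int.cast_abs] at e
    exact_mod_cast e
  rw [abs_le] at hLr
  rcases le_total (Lap h x : ℝ) 0 with h0 | h0
  · rw [max_eq_right h0, max_eq_left (by linarith)]
    nlinarith
  · rw [max_eq_left h0, max_eq_right (by linarith)]
    nlinarith

/-! ### B4: locality -/

private lemma B4_dist (x : V) {d : V} (hd : d ∈ dirs) (i : ℤ) : dist1 x (pt x d i) = |i| := by
  rw [mem_dirs] at hd
  rcases hd with rfl | rfl | rfl | rfl <;> simp [dist1, pt]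

private lemma B4_dist2 (x : V) {d : V} (hd : d ∈ dirs) (i j : ℤ) :
    dist1 x (pt (pt x d i) (prp d) j) = |i| + |j| := by
  rw [mem_dirs] at hd
  rcases hd with rfl | rfl | rfl | rfl <;> simp [dist1, pt, prp, add_comm]

private lemma B4_tri (u v w : V) : dist1 u w ≤ dist1 u v + dist1 v w := by
  have h1 := abs_sub_le u.1 v.1 w.1
  have h2 := abs_sub_le u.2 v.2 w.2
  unfold dist1
  linarith

private lemma B4_up {h g : V → ℤ} {x d : V} {l : ℕ} (hd : d ∈ dirs) (hl : 1 ≤ l)
    (he : ∀ v, dist1 x v ≤ l → h v = g v) (hu : Up h x d l) : Up g x d l := by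
  have h0 : h x = g x := he x (by simp [dist1])
  have hl' : (1 : ℤ) ≤ l := by exact_mod_cast hl
  refine ⟨hu.pos, fun i h1 h2 => ?_, fun i h1 h2 => ?_, fun i h1 h2 => ?_, ?_, ?_⟩
  · rw [← h0, ← he, hu.site i h1 h2]
    rw [B4_dist x hd, abs_of_nonneg h1]
    omega
  · rw [← h0, ← he, hu.side1 i h1 h2]
    rw [B4_dist2 x hd, abs_of_nonneg h1]
    simp only [abs_one]
    omega
  · rw [← h0, ← he, hu.side2 i h1 h2]
    rw [B4_dist2 x hd, abs_of_nonneg h1]
    simp only [abs_neg, abs_one]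
    omega
  · rw [← h0, ← he, hu.head]
    rw [B4_dist x hd]
    simpa using hl'
  · rw [← h0, ← he, hu.tail]
    rw [B4_dist x hd, abs_of_nonneg (by omega)]

/-
All sites occurring in `Up h x d l` are at distance at most `l` from `x`.
-/
theorem up_congr {h g : V → ℤ} {x d : V} {l : ℕ} (hd : d ∈ dirs) (hl : 1 ≤ l)
    (he : ∀ v, dist1 x v ≤ l → h v = g v) : Up h x d l ↔ Up g x d l :=
  ⟨B4_up hd hl he, B4_up hd hl fun v hv => (he v hv).symm⟩

theorem tw_congr {h g : V → ℤ} {x d : V} {l : ℕ} (hd : d ∈ dirs) (hl : 1 ≤ l)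
    (he : ∀ v, dist1 x v ≤ l → h v = g v) : tw h x d l = tw g x d l := by
  have h1 : Up h x d l ↔ Up g x d l := up_congr hd hl he
  have h2 : Down h x d l ↔ Down g x d l := up_congr hd hl fun v hv => by
    show -h v = -g v
    rw [he v hv]
  rw [tw, tw, propext h1, propext h2]

/-
`dist1 x (pt x d (-i)) = i ≤ l - 1`, triangle inequality, `tw_congr`.
-/
theorem psi_congr {h g : V → ℤ} {x : V} {R : ℕ} (he : ∀ v, dist1 x v ≤ 2 * R → h v = g v) :
    psi R h x = psi R g x := by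
  unfold psi
  refine Finset.sum_congr rfl fun d hd => Finset.sum_congr rfl fun l hl =>
    Finset.sum_congr rfl fun i hi => ?_
  rw [Finset.mem_Icc] at hl
  rw [Finset.mem_range] at hi
  refine tw_congr hd hl.1 fun v hv => he v ?_
  have h1 := B4_tri x (pt x d (-(i : ℤ))) v
  rw [B4_dist x hd, abs_neg, abs_of_nonneg (by omega)] at h1
  omega

/-
`rz` changes `h` only at the sites `pt y d j`, `0 ≤ j < l ≤ R`, with `y = pt z d (-i)`, `i < l`: at distance less than `R` from `z`.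
-/
theorem rz_off {h : V → ℤ} {z d : V} {l R : ℕ} {i : ℕ} (hd : d ∈ dirs) (hl : l ≤ R) (hi : i < l) {v : V}
    (hv : (R : ℤ) ≤ dist1 z v) : rz h (pt z d (-(i : ℤ))) d l v = h v := by
  classical
  unfold rz
  refine if_neg ?_
  rintro ⟨j, h0, h1, rfl⟩
  have h2 : pt (pt z d (-(i : ℤ))) d j = pt z d (j - i) := by
    unfold pt
    ext
    · simp only
      ring
    · simp only
      ring
  rw [h2, B4_dist z hd] at hv
  rcases le_abs.1 hv with h3 | h3 <;> omega

/-! ### B5: integration by parts for the drift -/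

private lemma B5a_pt (x d : V) (i j : ℤ) : pt (pt x d i) d j = pt x d (i + j) := by
  unfold pt
  ext
  · dsimp only
    ring
  · dsimp only
    ring

private lemma B5a_nd (x d : V) (i : ℤ) : pt x (nd d) (-i) = pt x d i := by
  unfold pt nd
  ext
  · dsimp only
    ring
  · dsimp only
    ring

private lemma B5a_nd2 (d : V) : nd (nd d) = d := by
  unfold nd
  ext
  · dsimp only
    ring
  · dsimp only
    ring

private lemma B5a_mem (d : V) (hd : d ∈ dirs) : nd d ∈ dirs := by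
  rcases mem_dirs.1 hd with rfl | rfl | rfl | rfl <;> simp [dirs, nd]

private lemma B5a_seg {D : Finset V} {x : V} {R : ℕ} (hball : ∀ v, dist1 x v ≤ R → v ∈ D) {d : V}
    (hd : d ∈ dirs) {l i : ℕ} (hl : l ≤ R) (hi : i < l) :
    ∀ v, Seg (pt x d (-(i : ℤ))) d l v → v ∈ D ∧ v ∉ bdry D := by
  rintro v ⟨j, h0, h1, rfl⟩
  rw [B5a_pt]
  have e := b2_dist1 (x := x) hd (-(i : ℤ) + j)
  have hk : |-(i : ℤ) + j| ≤ (R : ℤ) - 1 := by
    rw [abs_le]
    constructor <;> omega
  refine ⟨hball _ (by rw [e]; omega), fun hb => ?_⟩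
  obtain ⟨-, w, hw, hw'⟩ := mem_bdry.1 hb
  apply hw'
  apply hball
  generalize pt x d (-(i : ℤ) + j) = v at *
  unfold dist1 at e ⊢
  unfold Adj at hw
  rw [abs_sub_comm w.1, abs_sub_comm w.2] at hw
  have t1 := abs_sub_le x.1 v.1 w.1
  have t2 := abs_sub_le x.2 v.2 w.2
  omega

/-
Write `psi` as the sum over `d, l, i` of `2 * rho l * (ind Up - ind Down)` and re-index the `Down` part for fixed `l` by `d ↦ nd d`, `i ↦ l - 1 - i`:
`pt x (nd d) (-(l-1-i)) = pt (pt x d (-i)) d (l-1)` (`Finset.sum_nbij'` on `dirs` and `Finset.sum_range_reflect` on `range l`); then `ibp` for every tower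
(all its sites are at distance `≤ R - 1` from `x`, so they and their neighbours are in the ball: in `D` and not in `bdry D`).
-/
theorem psi_ibp (D : Finset V) (x : V) (R : ℕ) (hball : ∀ v, dist1 x v ≤ R → v ∈ D) (F : (V → ℤ) → ℝ) :
    ∑ h ∈ Om D, psi R h x * F h = ∑ d ∈ dirs, ∑ l ∈ Icc 1 R, ∑ i ∈ range l,
      2 * rho l * ∑ h ∈ Om D, ind (Up h (pt x d (-(i : ℤ))) d l) *
        (F h - F (rz h (pt x d (-(i : ℤ))) d l)) := by
  -- the left side
  have hL : ∑ h ∈ Om D, psi R h x * F h = ∑ d ∈ dirs, ∑ l ∈ Icc 1 R, ∑ i ∈ range l,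
      (2 * rho l * ∑ h ∈ Om D, ind (Up h (pt x d (-(i : ℤ))) d l) * F h -
        2 * rho l * ∑ h ∈ Om D, ind (Down h (pt x d (-(i : ℤ))) d l) * F h) := by
    simp only [psi, tw, Finset.sum_mul]
    rw [Finset.sum_comm]
    refine Finset.sum_congr rfl fun d _ => ?_
    rw [Finset.sum_comm]
    refine Finset.sum_congr rfl fun l _ => ?_
    rw [Finset.sum_comm]
    refine Finset.sum_congr rfl fun i _ => ?_
    rw [Finset.mul_sum, Finset.mul_sum, ← Finset.sum_sub_distrib]
    refine Finset.sum_congr rfl fun h _ => ?_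
    ring
  -- the right side
  have hR : ∀ d ∈ dirs, ∀ l ∈ Icc 1 R, ∀ i ∈ range l,
      2 * rho l * ∑ h ∈ Om D, ind (Up h (pt x d (-(i : ℤ))) d l) *
        (F h - F (rz h (pt x d (-(i : ℤ))) d l)) =
      2 * rho l * ∑ h ∈ Om D, ind (Up h (pt x d (-(i : ℤ))) d l) * F h -
        2 * rho l * ∑ h ∈ Om D,
          ind (Down h (pt x (nd d) (-((l - 1 - i : ℕ) : ℤ))) (nd d) l) * F h := by
    intro d hd l hl i hi
    rw [Finset.mem_Icc] at hl
    rw [Finset.mem_range] at hi
    have e := ibp D (pt x d (-(i : ℤ))) d l hd (B5a_seg hball hd hl.2 hi) F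
    have e2 : pt (pt x d (-(i : ℤ))) d ((l : ℤ) - 1) =
        pt x (nd d) (-((l - 1 - i : ℕ) : ℤ)) := by
      rw [B5a_pt, B5a_nd]
      congr 1
      omega
    rw [e2] at e
    rw [← e, ← mul_sub, ← Finset.sum_sub_distrib]
    congr 1
    refine Finset.sum_congr rfl fun h _ => ?_
    ring
  rw [hL]
  have hR' : ∑ d ∈ dirs, ∑ l ∈ Icc 1 R, ∑ i ∈ range l,
      2 * rho l * ∑ h ∈ Om D, ind (Up h (pt x d (-(i : ℤ))) d l) *
        (F h - F (rz h (pt x d (-(i : ℤ))) d l)) =
      ∑ d ∈ dirs, ∑ l ∈ Icc 1 R, ∑ i ∈ range l,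
      (2 * rho l * ∑ h ∈ Om D, ind (Up h (pt x d (-(i : ℤ))) d l) * F h -
        2 * rho l * ∑ h ∈ Om D,
          ind (Down h (pt x (nd d) (-((l - 1 - i : ℕ) : ℤ))) (nd d) l) * F h) :=
    Finset.sum_congr rfl fun d hd => Finset.sum_congr rfl fun l hl =>
      Finset.sum_congr rfl fun i hi => hR d hd l hl i hi
  rw [hR']
  simp only [Finset.sum_sub_distrib]
  congr 1
  -- re-indexing
  have h1 : ∀ d l, ∑ i ∈ range l, 2 * rho l * ∑ h ∈ Om D,
      ind (Down h (pt x (nd d) (-((l - 1 - i : ℕ) : ℤ))) (nd d) l) * F h =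
      ∑ i ∈ range l, 2 * rho l * ∑ h ∈ Om D,
      ind (Down h (pt x (nd d) (-(i : ℤ))) (nd d) l) * F h := fun d l =>
    Finset.sum_range_reflect (fun i => 2 * rho l * ∑ h ∈ Om D,
      ind (Down h (pt x (nd d) (-(i : ℤ))) (nd d) l) * F h) l
  simp only [h1]
  refine Finset.sum_nbij' nd nd B5a_mem B5a_mem (fun d _ => B5a_nd2 d) (fun d _ => B5a_nd2 d)
    (fun d _ => ?_)
  rw [B5a_nd2]

/-
`psi_ibp`; all differences vanish.
-/
theorem psi_orth (D : Finset V) (x : V) (R : ℕ) (hball : ∀ v, dist1 x v ≤ R → v ∈ D) (F : (V → ℤ) → ℝ)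
    (hF : ∀ h g : V → ℤ, (∀ v, (R : ℤ) ≤ dist1 x v → h v = g v) → F h = F g) :
    ∑ h ∈ Om D, psi R h x * F h = 0 := by
  rw [psi_ibp D x R hball F]
  refine Finset.sum_eq_zero (fun d hd => Finset.sum_eq_zero (fun l hl => Finset.sum_eq_zero
    (fun i hi => ?_)))
  rw [Finset.mem_Icc] at hl
  rw [Finset.mem_range] at hi
  have h0 : ∑ h ∈ Om D, ind (Up h (pt x d (-(i : ℤ))) d l) *
      (F h - F (rz h (pt x d (-(i : ℤ))) d l)) = 0 := by
    refine Finset.sum_eq_zero (fun h _ => ?_)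
    rw [hF (rz h (pt x d (-(i : ℤ))) d l) h (fun v hv => rz_off hd hl.2 hi hv), sub_self, mul_zero]
  rw [h0, mul_zero]

/-
`psi_orth` with `F h = psi R' h y` (`psi_congr`: it depends on the sites within distance `2 R'` of `y`; these are at distance `≥ R` from `x` as
`dist1 x y ≥ R + 2 * R'`).
-/
theorem psi_far (D : Finset V) (x y : V) (R R' : ℕ) (hball : ∀ v, dist1 x v ≤ R → v ∈ D)
    (hxy : (R : ℤ) + 2 * R' ≤ dist1 x y) : ∑ h ∈ Om D, psi R h x * psi R' h y = 0 := by
  refine psi_orth D x R hball (fun h => psi R' h y) (fun h g he => psi_congr (fun v hv => he v ?_))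
  have h1 : dist1 x y ≤ dist1 x v + dist1 y v := by
    unfold dist1
    have e1 : |x.1 - y.1| ≤ |x.1 - v.1| + |y.1 - v.1| := by
      have := abs_sub_le x.1 v.1 y.1
      rwa [abs_sub_comm v.1 y.1] at this
    have e2 : |x.2 - y.2| ≤ |x.2 - v.2| + |y.2 - v.2| := by
      have := abs_sub_le x.2 v.2 y.2
      rwa [abs_sub_comm v.2 y.2] at this
    linarith
  linarith

/-! ### B6: row sums -/

private lemma B6a_shift {k : V → ℤ} {x : V} {N : ℕ} (hN : 1 ≤ N) (hk : ∀ v, v ∉ Box x (N - 1) → k v = 0)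
    (c : V) (h1 : |c.1| ≤ 1) (h2 : |c.2| ≤ 1) :
    ∑ y ∈ Box x N, k (y.1 + c.1, y.2 + c.2) = ∑ᶠ v, k v := by
  have e1 : ∑ᶠ v : V, k (v.1 + c.1, v.2 + c.2) = ∑ᶠ v, k v := by
    have e2 := finsum_comp_equiv (Equiv.addRight c) (f := k)
    rw [← e2]
    rfl
  rw [← e1]
  refine (finsum_eq_sum_of_support_subset _ ?_).symm
  intro y hy
  rw [Function.mem_support] at hy
  have h3 : (y.1 + c.1, y.2 + c.2) ∈ Box x (N - 1) := by
    by_contra h
    exact hy (hk _ h)
  rw [mem_Box] at h3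
  rw [Finset.mem_coe, mem_Box]
  have hc : ((N - 1 : ℕ) : ℤ) = N - 1 := by
    push_cast [Nat.cast_sub hN]
    ring
  rw [hc] at h3
  simp only at h3
  rw [abs_le] at h1 h2
  rw [abs_le, abs_le] at h3
  rw [abs_le, abs_le]
  omega

/-
`∑_{y ∈ Box x N} Lap (h + k) y = ∑ Lap h y` if `k` is supported in `Box x (N - 1)`.  State: if `h = g` off `Box x (N-1)` (i.e. at all `v ∉ Box x (N-1)`)
then the sums agree.  Proof: by linearity `∑_{y ∈ Box x N} Lap k y = 0` for `k = h - g` vanishing off `Box x (N-1)`: `∑_{y ∈ Box x N} k (y.1 + 1, y.2) =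
∑_{z} k z` etc. (each of the four shifted sums equals the sum of `k` over `Box x N`: `Finset.sum_subset`/`sum_nbij` with the translated box).
-/
theorem lap_sum_congr {h g : V → ℤ} {x : V} {N : ℕ} (hN : 1 ≤ N) (he : ∀ v, v ∉ Box x (N - 1) → h v = g v) :
    ∑ y ∈ Box x N, Lap h y = ∑ y ∈ Box x N, Lap g y := by
  have hk : ∀ v, v ∉ Box x (N - 1) → (fun v => h v - g v) v = 0 := by
    intro v hv
    show h v - g v = 0
    rw [he v hv, sub_self]
  have a1 := B6a_shift hN hk (1, 0) (by norm_num) (by norm_num)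
  have a2 := B6a_shift hN hk (-1, 0) (by norm_num) (by norm_num)
  have a3 := B6a_shift hN hk (0, 1) (by norm_num) (by norm_num)
  have a4 := B6a_shift hN hk (0, -1) (by norm_num) (by norm_num)
  have a5 := B6a_shift hN hk (0, 0) (by norm_num) (by norm_num)
  simp only [add_zero] at a1 a2 a3 a4 a5
  rw [← sub_eq_zero, ← Finset.sum_sub_distrib]
  have e : ∀ y : V, Lap h y - Lap g y =
      ((h (y.1 + 1, y.2) - g (y.1 + 1, y.2)) + (h (y.1 + -1, y.2) - g (y.1 + -1, y.2)) +
        (h (y.1, y.2 + 1) - g (y.1, y.2 + 1)) + (h (y.1, y.2 + -1) - g (y.1, y.2 + -1))) -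
        4 * (h (y.1, y.2) - g (y.1, y.2)) := by
    intro y
    unfold Lap
    rw [← sub_eq_add_neg, ← sub_eq_add_neg]
    ring
  rw [Finset.sum_congr rfl fun y _ => e y, Finset.sum_sub_distrib, ← Finset.mul_sum,
    Finset.sum_add_distrib, Finset.sum_add_distrib, Finset.sum_add_distrib, a1, a2, a3, a4, a5]
  ring

/-
Write both as sums over `d, l, i` (`(l : ℝ) * tw h y d l = ∑ i ∈ range l, tw h y d l`).  For fixed `d, l, i` compare `∑_{y ∈ Box x N} tw h (pt y d (-i)) d l` with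
`∑_{y ∈ Box x N} tw h y d l`: the first is the sum over the translated box; the difference of the two is a sum over `z` in the symmetric
difference of the box and its translate by at most `R`, for which `|z - x|_∞ > N - R`, so `dist1 x z > N - R`, and `tw h z d l` depends only on the sites within
distance `R` of `z`, which are at distance `> N - 2 R ≥ R` from `x`.
-/
private lemma B6b_diff (R : ℕ) (h : V → ℤ) (y : V) : psi R h y - chg R h y =
    ∑ d ∈ dirs, ∑ l ∈ Icc 1 R, ∑ i ∈ range l, (tw h (pt y d (-(i : ℤ))) d l - tw h y d l) := by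
  unfold psi chg
  rw [← Finset.sum_sub_distrib]
  refine Finset.sum_congr rfl fun d _ => ?_
  rw [← Finset.sum_sub_distrib]
  refine Finset.sum_congr rfl fun l _ => ?_
  rw [Finset.sum_sub_distrib, Finset.sum_const, Finset.card_range, nsmul_eq_mul]

private lemma B6b_zero {h g : V → ℤ} {x d z : V} {R l : ℕ} (hd : d ∈ dirs) (hl : 1 ≤ l)
    (he : ∀ v, (R : ℤ) ≤ dist1 x v → h v = g v) (hz : (R : ℤ) + l ≤ dist1 x z) :
    tw h z d l = tw g z d l := by
  refine tw_congr hd hl fun v hv => he v ?_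
  unfold dist1 at *
  have h1 := abs_sub_le x.1 v.1 z.1
  have h2 := abs_sub_le x.2 v.2 z.2
  rw [abs_sub_comm v.1 z.1] at h1
  rw [abs_sub_comm v.2 z.2] at h2
  linarith

private lemma B6b_shift {x d : V} {R N l i : ℕ} {f : V → ℝ} (hN : 3 * R ≤ N) (hd : d ∈ dirs)
    (hl : l ≤ R) (hi : i < l) (hf : ∀ z, (R : ℤ) + l ≤ dist1 x z → f z = 0) :
    ∑ y ∈ Box x N, f (pt y d (-(i : ℤ))) = ∑ y ∈ Box x N, f y := by
  rw [← Finset.sum_filter_ne_zero (s := Box x N) (f := fun y => f (pt y d (-(i : ℤ)))),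
    ← Finset.sum_filter_ne_zero (s := Box x N) (f := f)]
  have hd1 : |d.1| ≤ 1 ∧ |d.2| ≤ 1 := by
    rcases mem_dirs.1 hd with rfl | rfl | rfl | rfl <;> simp
  have hpt : ∀ z : V, pt (pt z d (i : ℤ)) d (-(i : ℤ)) = z := by
    intro z
    unfold pt
    ext
    · simp
    · simp
  have hpt' : ∀ z : V, pt (pt z d (-(i : ℤ))) d (i : ℤ) = z := by
    intro z
    unfold pt
    ext
    · simp
    · simp
  have hN' : (3 : ℤ) * R ≤ N := by exact_mod_cast hN
  have hl' : (l : ℤ) ≤ R := by exact_mod_cast hl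
  have hi' : (i : ℤ) < l := by exact_mod_cast hi
  have hi0 : (0 : ℤ) ≤ i := by positivity
  refine Finset.sum_nbij' (fun y => pt y d (-(i : ℤ))) (fun z => pt z d (i : ℤ)) ?_ ?_ ?_ ?_ ?_
  · intro y hy
    rw [Finset.mem_filter] at hy ⊢
    refine ⟨?_, hy.2⟩
    rw [mem_Box]
    have h1 : dist1 x (pt y d (-(i : ℤ))) < R + l := by
      by_contra hcon
      exact hy.2 (hf _ (not_lt.1 hcon))
    unfold dist1 at h1
    rw [abs_sub_comm x.1, abs_sub_comm x.2] at h1
    have h2 := abs_nonneg ((pt y d (-(i : ℤ))).1 - x.1)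
    have h3 := abs_nonneg ((pt y d (-(i : ℤ))).2 - x.2)
    constructor <;> linarith
  · intro z hz
    rw [Finset.mem_filter] at hz ⊢
    refine ⟨?_, ?_⟩
    · rw [mem_Box]
      have h1 : dist1 x z < R + l := by
        by_contra hcon
        exact hz.2 (hf _ (not_lt.1 hcon))
      unfold dist1 at h1
      rw [abs_sub_comm x.1, abs_sub_comm x.2] at h1
      have h2 := abs_nonneg (z.1 - x.1)
      have h3 := abs_nonneg (z.2 - x.2)
      have h4 : |(i : ℤ) * d.1| ≤ i := by
        rw [abs_mul, abs_of_nonneg hi0]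
        nlinarith [hd1.1]
      have h5 : |(i : ℤ) * d.2| ≤ i := by
        rw [abs_mul, abs_of_nonneg hi0]
        nlinarith [hd1.2]
      have h6 := abs_add_le (z.1 - x.1) ((i : ℤ) * d.1)
      have h7 := abs_add_le (z.2 - x.2) ((i : ℤ) * d.2)
      have e1 : (pt z d (i : ℤ)).1 - x.1 = (z.1 - x.1) + (i : ℤ) * d.1 := by
        unfold pt
        ring
      have e2 : (pt z d (i : ℤ)).2 - x.2 = (z.2 - x.2) + (i : ℤ) * d.2 := by
        unfold pt
        ring
      rw [e1, e2]
      constructor <;> linarith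
    · simp only [hpt]
      exact hz.2
  · intro y _
    exact hpt' y
  · intro z _
    exact hpt z
  · intro y _
    rfl

theorem psi_sub_chg_congr {h g : V → ℤ} {x : V} {R N : ℕ} (hN : 3 * R ≤ N)
    (he : ∀ v, (R : ℤ) ≤ dist1 x v → h v = g v) :
    ∑ y ∈ Box x N, (psi R h y - chg R h y) = ∑ y ∈ Box x N, (psi R g y - chg R g y) := by
  rw [← sub_eq_zero, ← Finset.sum_sub_distrib]
  simp only [B6b_diff]
  have e1 : ∀ y : V, (∑ d ∈ dirs, ∑ l ∈ Icc 1 R, ∑ i ∈ range l,
        (tw h (pt y d (-(i : ℤ))) d l - tw h y d l)) -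
      (∑ d ∈ dirs, ∑ l ∈ Icc 1 R, ∑ i ∈ range l,
        (tw g (pt y d (-(i : ℤ))) d l - tw g y d l)) =
      ∑ d ∈ dirs, ∑ l ∈ Icc 1 R, ∑ i ∈ range l,
        ((tw h (pt y d (-(i : ℤ))) d l - tw g (pt y d (-(i : ℤ))) d l) -
          (tw h y d l - tw g y d l)) := by
    intro y
    rw [← Finset.sum_sub_distrib]
    refine Finset.sum_congr rfl fun d _ => ?_
    rw [← Finset.sum_sub_distrib]
    refine Finset.sum_congr rfl fun l _ => ?_
    rw [← Finset.sum_sub_distrib]
    refine Finset.sum_congr rfl fun i _ => ?_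
    ring
  simp only [e1]
  rw [Finset.sum_comm]
  refine Finset.sum_eq_zero fun d hd => ?_
  rw [Finset.sum_comm]
  refine Finset.sum_eq_zero fun l hl => ?_
  rw [Finset.sum_comm]
  refine Finset.sum_eq_zero fun i hi => ?_
  rw [Finset.mem_Icc] at hl
  rw [Finset.mem_range] at hi
  rw [Finset.sum_sub_distrib, sub_eq_zero]
  exact B6b_shift (f := fun z => tw h z d l - tw g z d l) hN hd hl.2 hi
    (fun z hz => sub_eq_zero.2 (B6b_zero hd hl.1 he hz))

/-
`∑_y psi R h y = [∑_y (psi - chg)] + [∑_y Lap h y] + ∑_y (chg - Lap)`; the first two brackets do not change under modifications of `h` at the sites of distance `< R`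
from `x` (`psi_sub_chg_congr`, `lap_sum_congr`), so they are orthogonal to `psi R h x` by `psi_orth`.
-/
theorem row_sum (D : Finset V) (x : V) (R N : ℕ) (hR : 1 ≤ R) (hN : 3 * R ≤ N)
    (hball : ∀ v, dist1 x v ≤ R → v ∈ D) :
    ∑ h ∈ Om D, psi R h x * ∑ y ∈ Box x N, psi R h y =
      ∑ y ∈ Box x N, ∑ h ∈ Om D, psi R h x * (chg R h y - Lap h y) := by
  have h1 := psi_orth D x R hball (fun h => ∑ y ∈ Box x N, (psi R h y - chg R h y))
    (fun h g he => psi_sub_chg_congr hN he)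
  have h2 := psi_orth D x R hball (fun h => ((∑ y ∈ Box x N, Lap h y : ℤ) : ℝ)) (by
    intro h g he
    have h3 : ∑ y ∈ Box x N, Lap h y = ∑ y ∈ Box x N, Lap g y := by
      refine lap_sum_congr (by omega) fun v hv => he v ?_
      rw [mem_Box, not_and_or, not_le, not_le] at hv
      have hc : (((N - 1 : ℕ) : ℤ)) = (N : ℤ) - 1 := by omega
      rw [hc] at hv
      have e1 : |x.1 - v.1| = |v.1 - x.1| := abs_sub_comm _ _
      have e2 : |x.2 - v.2| = |v.2 - x.2| := abs_sub_comm _ _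
      have a1 := abs_nonneg (v.1 - x.1)
      have a2 := abs_nonneg (v.2 - x.2)
      unfold dist1
      rw [e1, e2]
      rcases hv with hv | hv <;> omega
    simp only [h3])
  have h4 : ∀ h : V → ℤ, psi R h x * ∑ y ∈ Box x N, psi R h y =
      psi R h x * (∑ y ∈ Box x N, (psi R h y - chg R h y)) +
        psi R h x * ((∑ y ∈ Box x N, Lap h y : ℤ) : ℝ) +
        ∑ y ∈ Box x N, psi R h x * (chg R h y - Lap h y) := by
    intro h
    rw [← Finset.mul_sum, ← mul_add, ← mul_add]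
    congr 1
    push_cast
    rw [← Finset.sum_add_distrib, ← Finset.sum_add_distrib]
    refine Finset.sum_congr rfl fun y _ => ?_
    ring
  rw [Finset.sum_congr rfl fun h _ => h4 h, Finset.sum_add_distrib, Finset.sum_add_distrib, h1, h2,
    zero_add, zero_add, Finset.sum_comm]

end KP
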