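import Pool.Agent.Helper58.KP.C

/-!
The Dirichlet form from below, the Bogoliubov inequality.
-/

open Finset RP4

namespace KP

/-! ### E1: the Dirichlet form of a linear functional -/

private lemma KPE1_inj (z d : V) (hd : d ∈ dirs) :
    Function.Injective (fun j : ℕ => pt z d (j : ℤ)) := by
  intro i j h
  simp only [pt, Prod.mk.injEq] at h
  rcases mem_dirs.1 hd with rfl | rfl | rfl | rfl <;> simp at h <;> omega

/-
`B h = ∑_{x ∈ S₀} f x h x`: `B h - B (rz h z d l) = -2 ∑_{j < l} f (pt z d j)` (the sites `pt z d j`, `j < l`, are distinct; those outside `S₀` have `f = 0`).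
-/
theorem lin_rz (S₀ : Finset V) (f : V → ℝ) (hf0 : ∀ x, x ∉ S₀ → f x = 0) (h : V → ℤ) (z d : V) (hd : d ∈ dirs)
    (l : ℕ) : (∑ x ∈ S₀, f x * h x) - (∑ x ∈ S₀, f x * rz h z d l x) =
      -2 * ∑ j ∈ range l, f (pt z d j) := by
  classical
  have h1 : ∑ j ∈ range l, f (pt z d j) =
      ∑ x ∈ (range l).image (fun j : ℕ => pt z d (j : ℤ)), f x := by
    rw [Finset.sum_image fun i _ j _ hij => KPE1_inj z d hd hij]
  have h2 : ∑ x ∈ (range l).image (fun j : ℕ => pt z d (j : ℤ)), f x =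
      ∑ x ∈ S₀, if Seg z d l x then f x else 0 := by
    rw [← Finset.sum_filter]
    symm
    refine Finset.sum_subset_zero_on_sdiff ?_ ?_ fun x _ => rfl
    · intro x hx
      obtain ⟨i, hi0, hil, hxi⟩ := (Finset.mem_filter.1 hx).2
      refine Finset.mem_image.2 ⟨i.toNat, Finset.mem_range.2 (by omega), ?_⟩
      rw [Int.toNat_of_nonneg hi0]
      exact hxi.symm
    · intro x hx
      rw [Finset.mem_sdiff, Finset.mem_filter, not_and] at hx
      obtain ⟨hx1, hx2⟩ := hx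
      refine hf0 x fun hxS => hx2 hxS ?_
      obtain ⟨j, hj, hxj⟩ := Finset.mem_image.1 hx1
      exact ⟨j, Int.natCast_nonneg j, by exact_mod_cast Finset.mem_range.1 hj, hxj.symm⟩
  rw [h1, h2, Finset.mul_sum, ← Finset.sum_sub_distrib]
  refine Finset.sum_congr rfl fun x _ => ?_
  unfold rz
  by_cases hx : Seg z d l x
  · rw [if_pos hx, if_pos hx]
    push_cast
    ring
  · rw [if_neg hx, if_neg hx]
    ring

private lemma KPE1f_box_mono {M N : ℕ} (h : M ≤ N) : Box (0, 0) M ⊆ Box (0, 0) N := by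
  intro y hy
  rw [mem_Box] at hy ⊢
  have : (M : ℤ) ≤ N := by exact_mod_cast h
  exact ⟨hy.1.trans this, hy.2.trans this⟩

private lemma KPE1f_pt (x d : V) (i : ℤ) : pt (pt x d (-i)) d i = x := by
  unfold pt
  ext <;> simp

private lemma KPE1f_pt' (x d : V) (i : ℤ) : pt (pt x d i) d (-i) = x := by
  unfold pt
  ext <;> simp

private lemma KPE1f_mem {T R : ℕ} {x d : V} (hd : d ∈ dirs) {i : ℕ} (hi : i ≤ R)
    (hx : x ∈ Box (0, 0) T) : pt x d (-(i : ℤ)) ∈ Box (0, 0) (T + 3 * R) := by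
  rw [mem_Box] at hx ⊢
  obtain ⟨h1, h2⟩ := hx
  rw [abs_le] at h1 h2
  have hi' : (i : ℤ) ≤ R := by exact_mod_cast hi
  have h0 : (0 : ℤ) ≤ i := Int.natCast_nonneg i
  rw [mem_dirs] at hd
  simp only [sub_zero] at h1 h2
  simp only [pt, sub_zero, abs_le]
  push_cast
  rcases hd with rfl | rfl | rfl | rfl <;> refine ⟨⟨?_, ?_⟩, ?_, ?_⟩ <;> simp only [] <;> omega

private lemma KPE1f_shift {R T : ℕ} (f : V → ℝ) (hf0 : ∀ x, x ∉ Box (0, 0) T → f x = 0) {d : V}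
    (hd : d ∈ dirs) {i : ℕ} (hi : i ≤ R) (G : V → ℝ) :
    ∑ x ∈ Box (0, 0) (T + 3 * R), f x * G (pt x d (-(i : ℤ))) =
      ∑ y ∈ Box (0, 0) (T + 3 * R), f (pt y d i) * G y := by
  have hx : ∀ x, f x ≠ 0 → x ∈ Box (0, 0) T := fun x hx => by
    by_contra h
    exact hx (hf0 x h)
  refine Finset.sum_bij_ne_zero (fun x _ _ => pt x d (-(i : ℤ))) ?_ ?_ ?_ ?_
  · intro x _ h2
    exact KPE1f_mem hd hi (hx x (left_ne_zero_of_mul h2))
  · intro x _ _ x' _ _ h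
    have := congrArg (fun z => pt z d (i : ℤ)) h
    simpa only [KPE1f_pt] using this
  · intro y _ h2
    have h3 := hx _ (left_ne_zero_of_mul h2)
    refine ⟨pt y d i, KPE1f_box_mono (Nat.le_add_right _ _) h3, ?_, KPE1f_pt' y d i⟩
    rw [KPE1f_pt']
    exact h2
  · intro x _ _
    rw [KPE1f_pt]

private lemma KPE1f_swap {R T : ℕ} (f : V → ℝ) (hf0 : ∀ x, x ∉ Box (0, 0) T → f x = 0)
    (Q : V → V → ℕ → ℝ) :
    ∑ x ∈ Box (0, 0) (T + 3 * R), f x *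
        ∑ d ∈ dirs, ∑ l ∈ Icc 1 R, ∑ i ∈ range l, Q (pt x d (-(i : ℤ))) d l =
      ∑ y ∈ Box (0, 0) (T + 3 * R), ∑ d ∈ dirs, ∑ l ∈ Icc 1 R,
        (∑ i ∈ range l, f (pt y d i)) * Q y d l := by
  simp only [Finset.mul_sum, Finset.sum_mul]
  calc _ = ∑ d ∈ dirs, ∑ l ∈ Icc 1 R, ∑ i ∈ range l, ∑ x ∈ Box (0, 0) (T + 3 * R),
        f x * Q (pt x d (-(i : ℤ))) d l := by
        rw [Finset.sum_comm]
        refine Finset.sum_congr rfl fun d _ => ?_
        rw [Finset.sum_comm]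
        refine Finset.sum_congr rfl fun l _ => ?_
        rw [Finset.sum_comm]
    _ = ∑ d ∈ dirs, ∑ l ∈ Icc 1 R, ∑ i ∈ range l, ∑ y ∈ Box (0, 0) (T + 3 * R),
        f (pt y d i) * Q y d l := by
        refine Finset.sum_congr rfl fun d hd => Finset.sum_congr rfl fun l hl =>
          Finset.sum_congr rfl fun i hi => ?_
        have hl' := (Finset.mem_Icc.1 hl).2
        have hi' := Finset.mem_range.1 hi
        exact KPE1f_shift f hf0 hd (by omega) (fun z => Q z d l)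
    _ = _ := by
        symm
        rw [Finset.sum_comm]
        refine Finset.sum_congr rfl fun d _ => ?_
        rw [Finset.sum_comm]
        refine Finset.sum_congr rfl fun l _ => ?_
        rw [Finset.sum_comm]

/-
`psi_ibp` with `F = B` for every `x`, `lin_rz`; then re-index `y = pt x d (-i)`, `x = pt y d i` (for `x ∈ Box 0 T` and `i ≤ R` the point `y` is in `Box 0 (T + 3R)`; if `f x ≠ 0`
then `x ∈ Box 0 T`): `∑_{x ∈ S₀} f x G (pt x d (-i)) = ∑_{y ∈ S₀} f (pt y d i) G y`.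
-/
theorem dir_form {D : Finset V} {R T : ℕ} (hD : Deep D (Box (0, 0) (T + 3 * R)) (8 * R + 8))
    (f : V → ℝ) (hf0 : ∀ x, x ∉ Box (0, 0) T → f x = 0) :
    avg (Om D) (fun h => (∑ x ∈ Box (0, 0) (T + 3 * R), f x * psi R h x) *
        ∑ x ∈ Box (0, 0) (T + 3 * R), f x * h x) =
      -∑ y ∈ Box (0, 0) (T + 3 * R), ∑ d ∈ dirs, ∑ l ∈ Icc 1 R,
        4 * rho l * avg (Om D) (fun h => ind (Up h y d l)) * (∑ i ∈ range l, f (pt y d i)) ^ 2 := by
  have hf0' : ∀ x, x ∉ Box (0, 0) (T + 3 * R) → f x = 0 := fun x hx =>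
    hf0 x fun h => hx (KPE1f_box_mono (Nat.le_add_right _ _) h)
  have h1 : ∀ x ∈ Box (0, 0) (T + 3 * R),
      ∑ h ∈ Om D, psi R h x * (∑ z ∈ Box (0, 0) (T + 3 * R), f z * (h z : ℝ)) =
      ∑ d ∈ dirs, ∑ l ∈ Icc 1 R, ∑ i ∈ range l,
        (fun (z d : V) (l : ℕ) => -(4 * rho l) * ((∑ h ∈ Om D, ind (Up h z d l)) *
          ∑ j ∈ range l, f (pt z d j))) (pt x d (-(i : ℤ))) d l := by
    intro x hx
    rw [psi_ibp D x R (fun v hv => hD x hx v (hv.trans (by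
      have : (0 : ℤ) ≤ R := Int.natCast_nonneg R
      linarith))) (fun h => ∑ z ∈ Box (0, 0) (T + 3 * R), f z * (h z : ℝ))]
    refine Finset.sum_congr rfl fun d hd => Finset.sum_congr rfl fun l hl =>
      Finset.sum_congr rfl fun i hi => ?_
    have h2 : ∀ h ∈ Om D, ind (Up h (pt x d (-(i : ℤ))) d l) *
        ((∑ z ∈ Box (0, 0) (T + 3 * R), f z * (h z : ℝ)) -
          ∑ z ∈ Box (0, 0) (T + 3 * R), f z * (rz h (pt x d (-(i : ℤ))) d l z : ℝ)) =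
        ind (Up h (pt x d (-(i : ℤ))) d l) *
          (-2 * ∑ j ∈ range l, f (pt (pt x d (-(i : ℤ))) d j)) := by
      intro h _
      rw [lin_rz _ f hf0' h _ d hd l]
    rw [Finset.sum_congr rfl h2, ← Finset.sum_mul]
    simp only []
    ring
  have h3 : ∑ h ∈ Om D, (∑ x ∈ Box (0, 0) (T + 3 * R), f x * psi R h x) *
      ∑ x ∈ Box (0, 0) (T + 3 * R), f x * (h x : ℝ) =
      ∑ x ∈ Box (0, 0) (T + 3 * R), f x * ∑ h ∈ Om D, psi R h x *
        (∑ z ∈ Box (0, 0) (T + 3 * R), f z * (h z : ℝ)) := by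
    rw [Finset.sum_congr rfl fun x _ => Finset.mul_sum (Om D) (fun h => psi R h x *
      ∑ z ∈ Box (0, 0) (T + 3 * R), f z * (h z : ℝ)) (f x), Finset.sum_comm]
    refine Finset.sum_congr rfl fun h _ => ?_
    rw [Finset.sum_mul]
    exact Finset.sum_congr rfl fun x _ => by ring
  have h4 := KPE1f_swap (R := R) f hf0 (fun (z d : V) (l : ℕ) => -(4 * rho l) *
    ((∑ h ∈ Om D, ind (Up h z d l)) * ∑ j ∈ range l, f (pt z d j)))
  unfold avg
  rw [h3, Finset.sum_congr rfl fun x hx => by rw [h1 x hx], h4, Finset.sum_div,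
    ← Finset.sum_neg_distrib]
  refine Finset.sum_congr rfl fun y _ => ?_
  rw [Finset.sum_div, ← Finset.sum_neg_distrib]
  refine Finset.sum_congr rfl fun d _ => ?_
  rw [Finset.sum_div, ← Finset.sum_neg_distrib]
  refine Finset.sum_congr rfl fun l _ => ?_
  simp only []
  ring

/-! ### E2: lower bound for one head -/

private lemma KPE2a_avg_sum {ι : Type*} (S : Finset (V → ℤ)) (t : Finset ι)
    (F : ι → (V → ℤ) → ℝ) : avg S (fun h => ∑ i ∈ t, F i h) = ∑ i ∈ t, avg S (F i) := by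
  unfold avg
  rw [Finset.sum_comm, Finset.sum_div]

private lemma KPE2a_avg_mul (S : Finset (V → ℤ)) (a : ℝ) (F : (V → ℤ) → ℝ) :
    avg S (fun h => a * F h) = a * avg S F := by
  unfold avg
  rw [← Finset.mul_sum, mul_div_assoc]

private lemma KPE2a_sum2 (R : ℕ) : ∑ l ∈ Icc 1 R, ((l : ℝ) ^ 2)⁻¹ ≤ 2 := by
  have h1 : Icc 1 R = Ioo 0 (R + 1) := by
    ext l
    simp only [mem_Icc, mem_Ioo]
    omega
  rw [h1]
  have h2 := sum_Ioo_inv_sq_le (α := ℝ) 0 (R + 1)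
  refine h2.trans ?_
  norm_num

private lemma KPE2a_dist (x : V) {d : V} (hd : d ∈ dirs) (i : ℕ) :
    dist1 x (pt x d (i : ℤ)) = i := by
  rw [mem_dirs] at hd
  rcases hd with rfl | rfl | rfl | rfl <;> simp [dist1, pt]

private lemma KPE2a_diff {f : V → ℝ} {Λ : ℝ} (hΛ : 0 ≤ Λ)
    (hfL : ∀ x y, |f x - f y| ≤ Λ * dist1 x y) (y : V) {d : V} (hd : d ∈ dirs) (l : ℕ) :
    |(∑ i ∈ range l, f (pt y d i)) - l * f y| ≤ Λ * (l : ℝ) ^ 2 := by
  have h1 : (l : ℝ) * f y = ∑ _i ∈ range l, f y := by simp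
  rw [h1, ← Finset.sum_sub_distrib]
  refine (Finset.abs_sum_le_sum_abs _ _).trans ?_
  have h2 : ∀ i ∈ range l, |f (pt y d (i : ℤ)) - f y| ≤ Λ * l := by
    intro i hi
    have h3 := hfL y (pt y d (i : ℤ))
    rw [KPE2a_dist y hd, abs_sub_comm] at h3
    refine h3.trans (mul_le_mul_of_nonneg_left ?_ hΛ)
    have h4 : i ≤ l := (Finset.mem_range.1 hi).le
    push_cast
    exact_mod_cast h4
  refine (Finset.sum_le_sum h2).trans (le_of_eq ?_)
  rw [Finset.sum_const, Finset.card_range, nsmul_eq_mul]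
  ring

private lemma KPE2a_one {C Λ a F P : ℝ} {l : ℕ} (hl : 1 ≤ l) (hC : 0 ≤ C) (hP : 0 ≤ P)
    (hP2 : P ≤ C / (l : ℝ) ^ 16) (ha : |a - l * F| ≤ Λ * (l : ℝ) ^ 2) :
    F ^ 2 * ((l : ℝ) * (2 * rho l * P)) - 4 * C * Λ ^ 2 * ((l : ℝ) ^ 2)⁻¹ ≤
      4 * rho l * P * a ^ 2 := by
  have hl1 : (1 : ℝ) ≤ l := by exact_mod_cast hl
  have hl0 : (0 : ℝ) < l := by linarith
  have hr0 := rho_nonneg l
  have hr1 := rho_le l
  have h1 : (a - l * F) ^ 2 ≤ (Λ * (l : ℝ) ^ 2) ^ 2 := sq_le_sq' (abs_le.1 ha).1 (abs_le.1 ha).2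
  have h2 : (l * F) ^ 2 / 2 - (a - l * F) ^ 2 ≤ a ^ 2 := by
    nlinarith [sq_nonneg (a + (a - l * F))]
  have h3 : (l * F) ^ 2 / 2 - (Λ * (l : ℝ) ^ 2) ^ 2 ≤ a ^ 2 := by linarith
  have h4 : 0 ≤ 4 * rho l * P := by positivity
  have h5 := mul_le_mul_of_nonneg_left h3 h4
  refine le_trans ?_ h5
  have h6 : F ^ 2 * ((l : ℝ) * (2 * rho l * P)) ≤ 4 * rho l * P * ((l * F) ^ 2 / 2) := by
    have h7 : 0 ≤ F ^ 2 * (2 * rho l * P) := by positivity
    have h8 : (l : ℝ) ≤ (l : ℝ) ^ 2 := by nlinarith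
    calc F ^ 2 * ((l : ℝ) * (2 * rho l * P)) = F ^ 2 * (2 * rho l * P) * l := by ring
      _ ≤ F ^ 2 * (2 * rho l * P) * (l : ℝ) ^ 2 := mul_le_mul_of_nonneg_left h8 h7
      _ = _ := by ring
  have h9 : 4 * rho l * P * (Λ * (l : ℝ) ^ 2) ^ 2 ≤ 4 * C * Λ ^ 2 * ((l : ℝ) ^ 2)⁻¹ := by
    have h10 : rho l * P ≤ 1 / (l : ℝ) * (C / (l : ℝ) ^ 16) :=
      mul_le_mul hr1 hP2 hP (by positivity)
    have h11 : 1 / (l : ℝ) * (C / (l : ℝ) ^ 16) * (l : ℝ) ^ 4 ≤ C * ((l : ℝ) ^ 2)⁻¹ := by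
      have h12 : 1 / (l : ℝ) * (C / (l : ℝ) ^ 16) * (l : ℝ) ^ 4 = C * ((l : ℝ) ^ 13)⁻¹ := by
        field_simp
      rw [h12]
      refine mul_le_mul_of_nonneg_left ?_ hC
      exact inv_anti₀ (by positivity) (pow_le_pow_right₀ hl1 (by norm_num))
    calc 4 * rho l * P * (Λ * (l : ℝ) ^ 2) ^ 2 =
          4 * Λ ^ 2 * ((rho l * P) * (l : ℝ) ^ 4) := by ring
      _ ≤ 4 * Λ ^ 2 * (1 / (l : ℝ) * (C / (l : ℝ) ^ 16) * (l : ℝ) ^ 4) := by
          refine mul_le_mul_of_nonneg_left ?_ (by positivity)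
          exact mul_le_mul_of_nonneg_right h10 (by positivity)
      _ ≤ 4 * Λ ^ 2 * (C * ((l : ℝ) ^ 2)⁻¹) :=
          mul_le_mul_of_nonneg_left h11 (by positivity)
      _ = _ := by ring
  rw [mul_sub]
  linarith

/-
`(∑_{i<l} f (pt y d i))^2 ≥ l^2 f_y^2 / 2 - Λ^2 l^4` as `|∑ - l f_y| ≤ Λ l^2` and `a^2 ≥ b^2/2 - (a-b)^2`.  `4 rho l * P * l^2/2 ≥ l * (2 rho l * P)` (sum = `avg chgU`), the error
`∑_{d,l} 4 rho l P Λ^2 l^4 ≤ 4 ∑_l (4/l) (C/l^16) Λ^2 l^4 ≤ 32 C Λ^2`.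
-/
theorem head_lower {D S : Finset V} {R : ℕ} {C Λ : ℝ} (hC : 0 ≤ C) (hT : TailD D S R C) {y : V} (hy : y ∈ S)
    (f : V → ℝ) (hΛ : 0 ≤ Λ) (hfL : ∀ x y, |f x - f y| ≤ Λ * dist1 x y) :
    f y ^ 2 * avg (Om D) (fun h => chgU R h y) - 32 * C * Λ ^ 2 ≤
      ∑ d ∈ dirs, ∑ l ∈ Icc 1 R,
        4 * rho l * avg (Om D) (fun h => ind (Up h y d l)) * (∑ i ∈ range l, f (pt y d i)) ^ 2 := by
  have h1 : avg (Om D) (fun h => chgU R h y) = ∑ d ∈ dirs, ∑ l ∈ Icc 1 R,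
      (l : ℝ) * (2 * rho l * avg (Om D) (fun h => ind (Up h y d l))) := by
    unfold chgU
    rw [KPE2a_avg_sum]
    refine Finset.sum_congr rfl fun d _ => ?_
    rw [KPE2a_avg_sum]
    refine Finset.sum_congr rfl fun l _ => ?_
    rw [KPE2a_avg_mul, KPE2a_avg_mul]
  have h2 : ∀ d ∈ dirs, ∑ l ∈ Icc 1 R,
      (f y ^ 2 * ((l : ℝ) * (2 * rho l * avg (Om D) (fun h => ind (Up h y d l)))) -
        4 * C * Λ ^ 2 * ((l : ℝ) ^ 2)⁻¹) ≤ ∑ l ∈ Icc 1 R,
        4 * rho l * avg (Om D) (fun h => ind (Up h y d l)) *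
          (∑ i ∈ range l, f (pt y d i)) ^ 2 := by
    intro d hd
    refine Finset.sum_le_sum fun l hl => ?_
    rw [Finset.mem_Icc] at hl
    exact KPE2a_one hl.1 hC
      (div_nonneg (Finset.sum_nonneg fun g _ => ind_nonneg _) (Nat.cast_nonneg _))
      (prob_up hT hy hd hl.1 hl.2).1 (KPE2a_diff hΛ hfL y hd l)
  refine le_trans ?_ (Finset.sum_le_sum h2)
  have h3 : ∀ d ∈ dirs, f y ^ 2 * (∑ l ∈ Icc 1 R,
      (l : ℝ) * (2 * rho l * avg (Om D) (fun h => ind (Up h y d l)))) - 8 * C * Λ ^ 2 ≤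
      ∑ l ∈ Icc 1 R, (f y ^ 2 * ((l : ℝ) * (2 * rho l * avg (Om D) (fun h => ind (Up h y d l)))) -
        4 * C * Λ ^ 2 * ((l : ℝ) ^ 2)⁻¹) := by
    intro d _
    rw [Finset.sum_sub_distrib, Finset.mul_sum]
    refine sub_le_sub_left ?_ _
    have h4 : 0 ≤ 4 * C * Λ ^ 2 := by positivity
    have h5 := mul_le_mul_of_nonneg_left (KPE2a_sum2 R) h4
    rw [Finset.mul_sum] at h5
    linarith
  refine le_trans ?_ (Finset.sum_le_sum h3)
  rw [Finset.sum_sub_distrib, h1, Finset.mul_sum, Finset.sum_const, nsmul_eq_mul]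
  have h6 : dirs.card = 4 := by decide
  rw [h6]
  push_cast
  linarith

/-
`avg (max Lap 0) = avg (max (-Lap) 0)` by `avg_neg_Om` (A03s.lean), sum `≥ avg Lap^2 / 4` (`lap_sq_le`); `chgU_bounds`, `TailD` with `l = R`.
-/
theorem chgU_lower {D S : Finset V} {R : ℕ} {C : ℝ} (hR : 1 ≤ R) (hT : TailD D S R C) {y : V} (hy : y ∈ S)
    (hyD : ∀ v, dist1 y v ≤ R + 2 → v ∈ D) :
    avg (Om D) (fun h => (Lap h y : ℝ) ^ 2) / 8 - 8 * C / ((R : ℝ) + 1) ^ 16 ≤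
      avg (Om D) (fun h => chgU R h y) := by
  have hadd : ∀ F G : (V → ℤ) → ℝ, avg (Om D) (fun h => F h + G h) = avg (Om D) F + avg (Om D) G := by
    intro F G
    unfold avg
    rw [Finset.sum_add_distrib, add_div]
  have hmul : ∀ (c : ℝ) (F : (V → ℤ) → ℝ), avg (Om D) (fun h => c * F h) = c * avg (Om D) F := by
    intro c F
    unfold avg
    rw [← Finset.mul_sum, mul_div_assoc]
  have e1 : avg (Om D) (fun h => max (-(Lap h y : ℝ)) 0) = avg (Om D) (fun h => max (Lap h y : ℝ) 0) := by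
    rw [← avg_neg_Om (D := D) (fun h => max (Lap h y : ℝ) 0)]
    congr 1
    funext g
    have h1 : Lap (-g) y = -Lap g y := by
      unfold Lap
      simp only [Pi.neg_apply]
      ring
    rw [h1]
    push_cast
    rfl
  have e2 : avg (Om D) (fun h => (1 / 4) * (Lap h y : ℝ) ^ 2) ≤
      avg (Om D) (fun h => max (Lap h y : ℝ) 0 + max (-(Lap h y : ℝ)) 0) := by
    refine avg_mono fun h hh => ?_
    have h1 := lap_sq_le (unit_of_mem hh (x := y) (r := 2) fun v hv => hyD v (by omega))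
    linarith
  rw [hadd, hmul, e1] at e2
  have e3 : avg (Om D) (fun h => max (Lap h y : ℝ) 0 + (-2) * lng R h y) ≤
      avg (Om D) (fun h => chgU R h y) := by
    refine avg_mono fun h hh => ?_
    have h1 := (chgU_bounds hR (unit_of_mem hh (x := y) (r := (R : ℤ) + 2) hyD)).1
    linarith
  rw [hadd, hmul] at e3
  have e4 : avg (Om D) (fun h => lng R h y) ≤ 4 * (C / ((R : ℝ) + 1) ^ 16) := by
    have h9 : avg (Om D) (fun h => lng R h y) =
        ∑ d ∈ dirs, avg (Om D) (fun h => ind (|h (pt y d R) - h y| = R)) := by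
      unfold avg lng
      rw [Finset.sum_comm, Finset.sum_div]
    rw [h9]
    refine (Finset.sum_le_sum fun d hd => hT y hy d hd R le_rfl).trans (le_of_eq ?_)
    have h7 : dirs.card = 4 := by
      unfold dirs
      decide
    rw [Finset.sum_const, h7, nsmul_eq_mul]
    push_cast
    ring
  have e5 : 8 * C / ((R : ℝ) + 1) ^ 16 = 8 * (C / ((R : ℝ) + 1) ^ 16) := by ring
  rw [e5]
  linarith

/-! ### E3: Bogoliubov inequality, in `D` -/

private lemma KPE3_chgU_nonneg (R : ℕ) (h : V → ℤ) (y : V) : 0 ≤ chgU R h y := by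
  unfold chgU
  refine Finset.sum_nonneg fun d _ => Finset.sum_nonneg fun l _ => ?_
  exact mul_nonneg (Nat.cast_nonneg _)
    (mul_nonneg (mul_nonneg (by norm_num) (rho_nonneg l)) (ind_nonneg _))

private lemma KPE3_avg_nonneg (S : Finset (V → ℤ)) (F : (V → ℤ) → ℝ) (h : ∀ g, 0 ≤ F g) :
    0 ≤ avg S F := by
  unfold avg
  exact div_nonneg (Finset.sum_nonneg fun g _ => h g) (Nat.cast_nonneg _)

private lemma KPE3_box_mono {x : V} {M N : ℕ} (h : M ≤ N) : Box x M ⊆ Box x N := by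
  intro y hy
  rw [mem_Box] at hy ⊢
  have : (M : ℤ) ≤ N := by exact_mod_cast h
  exact ⟨hy.1.trans this, hy.2.trans this⟩

private lemma KPE3_lower {D S : Finset V} {R T : ℕ} {C Λ : ℝ} (hR : 1 ≤ R) (hC : 0 ≤ C)
    (hT : TailD D S R C)
    (hD : Deep D (Box (0, 0) (T + 3 * R)) (8 * R + 8)) (hS : Deep S (Box (0, 0) (T + 3 * R)) (8 * R + 8))
    (hlap : ∀ x ∈ Box (0, 0) (T + 3 * R), Even (par x) → 3 ≤ avg (Om D) (fun h => (Lap h x : ℝ) ^ 2))
    (f : V → ℝ) (hΛ : 0 ≤ Λ) (hfL : ∀ x y, |f x - f y| ≤ Λ * dist1 x y) :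
    (3 / 8 - 8 * C / ((R : ℝ) + 1) ^ 16) *
        (∑ y ∈ (Box (0, 0) T).filter (fun y => Even (par y)), f y ^ 2) -
      32 * C * Λ ^ 2 * (Box (0, 0) (T + 3 * R)).card ≤
      ∑ y ∈ Box (0, 0) (T + 3 * R), ∑ d ∈ dirs, ∑ l ∈ Icc 1 R,
        4 * rho l * avg (Om D) (fun h => ind (Up h y d l)) * (∑ i ∈ range l, f (pt y d i)) ^ 2 := by
  have hyS : ∀ y ∈ Box (0, 0) (T + 3 * R), y ∈ S := fun y hy => hS y hy y (by
    unfold dist1
    simp only [sub_self, abs_zero, add_zero]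
    positivity)
  have hyD : ∀ y ∈ Box (0, 0) (T + 3 * R), ∀ v, dist1 y v ≤ R + 2 → v ∈ D :=
    fun y hy v hv => hD y hy v (hv.trans (by
      have : (0 : ℤ) ≤ R := Int.natCast_nonneg R
      linarith))
  have h1 : ∑ y ∈ Box (0, 0) (T + 3 * R),
      (f y ^ 2 * avg (Om D) (fun h => chgU R h y) - 32 * C * Λ ^ 2) ≤
      ∑ y ∈ Box (0, 0) (T + 3 * R), ∑ d ∈ dirs, ∑ l ∈ Icc 1 R,
        4 * rho l * avg (Om D) (fun h => ind (Up h y d l)) * (∑ i ∈ range l, f (pt y d i)) ^ 2 :=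
    Finset.sum_le_sum fun y hy => head_lower hC hT (hyS y hy) f hΛ hfL
  refine le_trans ?_ h1
  rw [Finset.sum_sub_distrib, Finset.sum_const, nsmul_eq_mul, mul_comm ((Box (0, 0) (T + 3 * R)).card : ℝ)]
  refine sub_le_sub_right ?_ _
  have hsub : (Box (0, 0) T).filter (fun y => Even (par y)) ⊆ Box (0, 0) (T + 3 * R) :=
    (Finset.filter_subset _ _).trans (KPE3_box_mono (Nat.le_add_right _ _))
  refine le_trans ?_ (Finset.sum_le_sum_of_subset_of_nonneg hsub fun y _ _ =>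
    mul_nonneg (sq_nonneg (f y)) (KPE3_avg_nonneg _ _ fun h => KPE3_chgU_nonneg R h y))
  rw [Finset.mul_sum]
  refine Finset.sum_le_sum fun y hy => ?_
  have hy1 := hsub hy
  have h2 := chgU_lower hR hT (hyS y hy1) (hyD y hy1)
  have h3 := hlap y hy1 (Finset.mem_filter.1 hy).2
  rw [mul_comm]
  refine mul_le_mul_of_nonneg_left ?_ (sq_nonneg (f y))
  linarith

/-
`avg_cs` with `F = LB`, `G = B`; `quad_upper`; `dir_form`, `head_lower`, `chgU_lower` (for `y` with odd parity use only `chgU ≥ 0`).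
The left side is the square of a lower bound of `-avg (LB * B)`, which is used only if it is nonnegative.
-/
theorem bogoliubov {D S : Finset V} {R T : ℕ} {C Λ B : ℝ} (hR : 1 ≤ R) (hC : 0 ≤ C) (hT : TailD D S R C)
    (hD : Deep D (Box (0, 0) (T + 3 * R)) (8 * R + 8)) (hS : Deep S (Box (0, 0) (T + 3 * R)) (8 * R + 8))
    (hlap : ∀ x ∈ Box (0, 0) (T + 3 * R), Even (par x) → 3 ≤ avg (Om D) (fun h => (Lap h x : ℝ) ^ 2))
    (f : V → ℝ) (hf0 : ∀ x, x ∉ Box (0, 0) T → f x = 0) (hΛ : 0 ≤ Λ)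
    (hfL : ∀ x y, |f x - f y| ≤ Λ * dist1 x y) (hfB : ∀ x, |f x| ≤ B)
    (hpos : 0 ≤ (3 / 8 - 8 * C / ((R : ℝ) + 1) ^ 16) *
        (∑ y ∈ (Box (0, 0) T).filter (fun y => Even (par y)), f y ^ 2) -
      32 * C * Λ ^ 2 * (Box (0, 0) (T + 3 * R)).card) :
    ((3 / 8 - 8 * C / ((R : ℝ) + 1) ^ 16) *
        (∑ y ∈ (Box (0, 0) T).filter (fun y => Even (par y)), f y ^ 2) -
      32 * C * Λ ^ 2 * (Box (0, 0) (T + 3 * R)).card) ^ 2 ≤
      (12000000 * C * Λ ^ 2 + 12544 * C / ((R : ℝ) + 1) ^ 6 * B ^ 2) * (Box (0, 0) (T + 3 * R)).card *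
        avg (Om D) (fun h => (∑ x ∈ Box (0, 0) (T + 3 * R), f x * h x) ^ 2) := by
  have h1 := KPE3_lower hR hC hT hD hS hlap f hΛ hfL
  have h2 := dir_form hD f hf0
  have h3 := avg_cs (Om D) (fun h => ∑ x ∈ Box (0, 0) (T + 3 * R), f x * psi R h x)
    (fun h => ∑ x ∈ Box (0, 0) (T + 3 * R), f x * h x)
  have h4 := quad_upper hR hC hT hD hS f hf0 hfL hfB
  have h5 : 0 ≤ avg (Om D) (fun h => (∑ x ∈ Box (0, 0) (T + 3 * R), f x * (h x : ℝ)) ^ 2) :=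
    KPE3_avg_nonneg _ _ fun h => sq_nonneg _
  rw [h2, neg_sq] at h3
  exact ((pow_le_pow_left₀ hpos h1 2).trans h3).trans (mul_le_mul_of_nonneg_right h4 h5)

end KP
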