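import Pool.Agent.Helper58.KP.E
import Pool.Agent.Helper58.KP.H

/-!
The choice of the test function and the conclusion.
-/

open Finset RP4 Filter Topology

namespace KP

/-- bump function, `1` on the square of radius `1`, `0` off the square of radius `2` -/
noncomputable def bmp : ContDiffBump (0 : ℝ × ℝ) := ⟨1, 2, by norm_num, by norm_num⟩

/-- the test function: odd, smooth, compactly supported -/
noncomputable def Fb (z : ℝ × ℝ) : ℝ := z.1 * bmp z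

/-- on the lattice, mesh `1 / n^2` -/
noncomputable def fn (n : ℕ) (x : V) : ℝ := Fb ((x.1 : ℝ) / (n : ℝ) ^ 2, (x.2 : ℝ) / (n : ℝ) ^ 2)

/-! ### F1: the test function -/

/-
`ContDiffBump.contDiff`, `ContDiffBump.hasCompactSupport`, `ContDiffBump.neg`; the integral of an odd function vanishes (`integral_neg_eq_self`).
-/
theorem Fb_contDiff : ContDiff ℝ 1 Fb := by
  unfold Fb
  exact contDiff_fst.mul bmp.contDiff

theorem Fb_compact : HasCompactSupport Fb := by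
  have h : HasCompactSupport (fun z : ℝ × ℝ => bmp z) := bmp.hasCompactSupport
  exact h.mul_left (f := fun z : ℝ × ℝ => z.1)

theorem Fb_odd (z : ℝ × ℝ) : Fb (-z) = -Fb z := by
  unfold Fb
  rw [ContDiffBump.neg, Prod.fst_neg, neg_mul]

theorem Fb_int : ∫ z, Fb z = 0 := by
  have h1 : ∫ z, Fb (-z) = ∫ z, Fb z := MeasureTheory.integral_neg_eq_self Fb MeasureTheory.volume
  have h2 : ∫ z, Fb (-z) = -∫ z, Fb z := by
    rw [← MeasureTheory.integral_neg]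
    exact MeasureTheory.integral_congr_ae (Eventually.of_forall fun z => Fb_odd z)
  linarith

/-! ### F2: size, support, Lipschitz constant -/

private lemma F1_zero {z : ℝ × ℝ} (h : 2 < |z.1| ∨ 2 < |z.2|) : Fb z = 0 := by
  have h1 : bmp z = 0 := by
    apply ContDiffBump.zero_of_le_dist
    have h2 : (2 : ℝ) ≤ dist z 0 := by
      rw [dist_zero_right, Prod.norm_def, Real.norm_eq_abs, Real.norm_eq_abs]
      rcases h with h | h
      · exact h.le.trans (le_max_left _ _)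
      · exact h.le.trans (le_max_right _ _)
    exact h2
  unfold Fb
  rw [h1, mul_zero]

/-
`|Fb z| ≤ 2` (zero off the square of radius `2`, `0 ≤ bmp ≤ 1`).
-/
theorem fn_bound (n : ℕ) (x : V) : |fn n x| ≤ 2 := by
  unfold fn
  set z : ℝ × ℝ := ((x.1 : ℝ) / (n : ℝ) ^ 2, (x.2 : ℝ) / (n : ℝ) ^ 2)
  by_cases h : |z.1| ≤ 2
  · unfold Fb
    rw [abs_mul, abs_of_nonneg bmp.nonneg]
    calc |z.1| * bmp z ≤ 2 * 1 := mul_le_mul h bmp.le_one bmp.nonneg (by norm_num)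
      _ = 2 := by norm_num
  · rw [F1_zero (Or.inl (lt_of_not_ge h))]
    norm_num

/-
If `x ∉ Box 0 (2 n^2)` then one coordinate divided by `n^2` exceeds `2` in absolute value (`n ≥ 1`), where `bmp` vanishes.
-/
theorem fn_supp {n : ℕ} (hn : 1 ≤ n) (x : V) (hx : x ∉ Box (0, 0) (2 * n ^ 2)) : fn n x = 0 := by
  have hn1 : (0 : ℝ) < (n : ℝ) ^ 2 := by positivity
  have key : ∀ a : ℤ, ¬ |a| ≤ ((2 * n ^ 2 : ℕ) : ℤ) → 2 < |(a : ℝ) / (n : ℝ) ^ 2| := by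
    intro a ha
    rw [abs_div, abs_of_pos hn1, lt_div_iff₀ hn1]
    have h1 : ((2 * n ^ 2 : ℕ) : ℤ) < |a| := lt_of_not_ge ha
    have h2 : (((2 * n ^ 2 : ℕ) : ℤ) : ℝ) < ((|a| : ℤ) : ℝ) := by exact_mod_cast h1
    rw [Int.cast_abs] at h2
    push_cast at h2
    exact h2
  rw [mem_Box, not_and_or] at hx
  simp only [sub_zero] at hx
  unfold fn
  rcases hx with hx | hx
  · exact F1_zero (Or.inl (key _ hx))
  · exact F1_zero (Or.inr (key _ hx))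

/-
`ContDiff.lipschitzWith_of_hasCompactSupport` (Mathlib) gives `L`; norm of `ℝ × ℝ` is the maximum norm, `≤` the sum.
-/
theorem fn_lip : ∃ L : ℝ, 0 ≤ L ∧ ∀ (n : ℕ), 1 ≤ n → ∀ x y : V,
    |fn n x - fn n y| ≤ L / (n : ℝ) ^ 2 * dist1 x y := by
  obtain ⟨L, hL⟩ := ContDiff.lipschitzWith_of_hasCompactSupport Fb_compact Fb_contDiff one_ne_zero
  refine ⟨L, L.2, fun n hn x y => ?_⟩
  have hn2 : (0 : ℝ) < (n : ℝ) ^ 2 := by
    have : (0 : ℝ) < n := by exact_mod_cast hn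
    positivity
  have h1 := hL.dist_le_mul ((x.1 : ℝ) / (n : ℝ) ^ 2, (x.2 : ℝ) / (n : ℝ) ^ 2)
    ((y.1 : ℝ) / (n : ℝ) ^ 2, (y.2 : ℝ) / (n : ℝ) ^ 2)
  rw [Real.dist_eq] at h1
  refine (show |fn n x - fn n y| ≤ _ from h1).trans ?_
  rw [div_mul_eq_mul_div, mul_div_assoc]
  refine mul_le_mul_of_nonneg_left ?_ L.2
  rw [Prod.dist_eq, max_le_iff]
  have h2 : ((dist1 x y : ℤ) : ℝ) = |(x.1 : ℝ) - y.1| + |(x.2 : ℝ) - y.2| := by
    unfold dist1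
    push_cast
    rfl
  have h3 := abs_nonneg ((x.1 : ℝ) - y.1)
  have h4 := abs_nonneg ((x.2 : ℝ) - y.2)
  constructor
  · show dist ((x.1 : ℝ) / (n : ℝ) ^ 2) ((y.1 : ℝ) / (n : ℝ) ^ 2) ≤ _
    rw [Real.dist_eq, ← sub_div, abs_div, abs_of_pos hn2, h2]
    exact div_le_div_of_nonneg_right (by linarith) hn2.le
  · show dist ((x.2 : ℝ) / (n : ℝ) ^ 2) ((y.2 : ℝ) / (n : ℝ) ^ 2) ≤ _
    rw [Real.dist_eq, ← sub_div, abs_div, abs_of_pos hn2, h2]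
    exact div_le_div_of_nonneg_right (by linarith) hn2.le

/-! ### F3: sums -/

/-
Reflection `x ↦ -x` of the box, `Fb_odd`.
-/
theorem fn_sum (n M : ℕ) : ∑ x ∈ Box (0, 0) M, fn n x = 0 := by
  have h1 : ∑ x ∈ Box (0, 0) M, fn n x = ∑ x ∈ Box (0, 0) M, fn n (-x) := by
    refine Finset.sum_nbij' (fun x => -x) (fun x => -x) (fun x hx => ?_) (fun x hx => ?_)
      (fun x _ => neg_neg x) (fun x _ => neg_neg x) (fun x _ => by rw [neg_neg])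
    · rw [mem_Box] at hx ⊢
      simp only [Prod.fst_neg, Prod.snd_neg, sub_zero, abs_neg] at hx ⊢
      exact hx
    · rw [mem_Box] at hx ⊢
      simp only [Prod.fst_neg, Prod.snd_neg, sub_zero, abs_neg] at hx ⊢
      exact hx
  have h2 : ∀ x : V, fn n (-x) = -fn n x := by
    intro x
    unfold fn
    rw [← Fb_odd]
    congr 1
    refine Prod.ext ?_ ?_
    · simp only [Prod.fst_neg, Int.cast_neg, neg_div]
    · simp only [Prod.snd_neg, Int.cast_neg, neg_div]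
  simp only [h2, Finset.sum_neg_distrib] at h1
  linarith

lemma f3_sq (k : ℕ) : ∑ i ∈ range (k + 1), (i : ℝ) ^ 2 = (k : ℝ) * (k + 1) * (2 * k + 1) / 6 := by
  induction k with
  | zero => simp
  | succ k ih =>
    rw [Finset.sum_range_succ, ih]
    push_cast
    ring

lemma f3_val {n : ℕ} (hn : 2 ≤ n) {i j : ℕ} (hi : 2 * i ≤ n ^ 2) (hj : 2 * j ≤ n ^ 2) :
    fn n (2 * (i : ℤ), 2 * (j : ℤ)) = 2 * (i : ℝ) / (n : ℝ) ^ 2 := by
  have hpos : (0 : ℝ) < (n : ℝ) ^ 2 := by positivity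
  have hi' : (2 * (i : ℝ)) / (n : ℝ) ^ 2 ≤ 1 := by
    rw [div_le_one hpos]
    exact_mod_cast hi
  have hj' : (2 * (j : ℝ)) / (n : ℝ) ^ 2 ≤ 1 := by
    rw [div_le_one hpos]
    exact_mod_cast hj
  have hone : bmp ((2 * (i : ℝ)) / (n : ℝ) ^ 2, (2 * (j : ℝ)) / (n : ℝ) ^ 2) = 1 := by
    apply ContDiffBump.one_of_mem_closedBall
    rw [mem_closedBall_zero_iff, Prod.norm_def]
    show max _ _ ≤ (1 : ℝ)
    rw [Real.norm_of_nonneg (by positivity), Real.norm_of_nonneg (by positivity)]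
    exact max_le hi' hj'
  unfold fn Fb
  push_cast
  rw [hone, mul_one]

/-
`N = n^2 ≥ 4`, `k = N / 2`: the points `(2 i, 2 j)` with `0 ≤ i, j ≤ k` are in `Box 0 N` and even, there `fn n x = 2 i / N` (`bmp = 1` on the square of radius `1`,
`ContDiffBump.one_of_mem_closedBall`).  `∑_{i,j} (2 i / N)^2 = (k + 1) (4 / N^2) k (k + 1) (2 k + 1) / 6 ≥ N^2 / 24`.
-/
theorem fn_sq_sum {n : ℕ} (hn : 2 ≤ n) :
    (n : ℝ) ^ 4 / 24 ≤ ∑ y ∈ (Box (0, 0) (2 * n ^ 2)).filter (fun y => Even (par y)), fn n y ^ 2 := by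
  classical
  set k : ℕ := n ^ 2 / 2 with hk
  have hk2 : 2 * k ≤ n ^ 2 := by omega
  have hk3 : n ^ 2 ≤ 2 * k + 1 := by omega
  have hnpos : (0 : ℝ) < (n : ℝ) ^ 2 := by positivity
  set S : Finset (ℕ × ℕ) := range (k + 1) ×ˢ range (k + 1) with hS
  have hinj : Set.InjOn (fun q : ℕ × ℕ => ((2 * (q.1 : ℤ), 2 * (q.2 : ℤ)) : V)) (S : Set (ℕ × ℕ)) := by
    rintro ⟨a, b⟩ _ ⟨c, e⟩ _ h
    simp only [Prod.mk.injEq] at h ⊢
    omega
  have hsub : S.image (fun q : ℕ × ℕ => ((2 * (q.1 : ℤ), 2 * (q.2 : ℤ)) : V)) ⊆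
      (Box (0, 0) (2 * n ^ 2)).filter (fun y => Even (par y)) := by
    intro y hy
    obtain ⟨⟨a, b⟩, hab, rfl⟩ := Finset.mem_image.1 hy
    simp only [hS, Finset.mem_product, Finset.mem_range] at hab
    obtain ⟨ha, hb⟩ := hab
    refine Finset.mem_filter.2 ⟨mem_Box.2 ?_, ?_⟩
    · have ha' : 2 * a ≤ n ^ 2 := by omega
      have hb' : 2 * b ≤ n ^ 2 := by omega
      zify at ha' hb'
      push_cast
      constructor
      · rw [abs_of_nonneg (by simp)]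
        linarith [sq_nonneg (n : ℤ)]
      · rw [abs_of_nonneg (by simp)]
        linarith [sq_nonneg (n : ℤ)]
    · exact ⟨(a : ℤ) + b, by simp only [par]; ring⟩
  have hsum : ∑ y ∈ S.image (fun q : ℕ × ℕ => ((2 * (q.1 : ℤ), 2 * (q.2 : ℤ)) : V)), fn n y ^ 2 =
      4 / ((n : ℝ) ^ 2) ^ 2 * ((k : ℝ) * (k + 1) * (2 * k + 1) / 6) * (k + 1) := by
    rw [Finset.sum_image hinj, hS, Finset.sum_product]
    have e1 : ∀ a ∈ range (k + 1), ∑ b ∈ range (k + 1), fn n (2 * (a : ℤ), 2 * (b : ℤ)) ^ 2 =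
        (4 / ((n : ℝ) ^ 2) ^ 2 * (a : ℝ) ^ 2) * (k + 1) := by
      intro a ha
      have e2 : ∀ b ∈ range (k + 1), fn n (2 * (a : ℤ), 2 * (b : ℤ)) ^ 2 =
          4 / ((n : ℝ) ^ 2) ^ 2 * (a : ℝ) ^ 2 := by
        intro b hb
        rw [Finset.mem_range] at ha hb
        rw [f3_val hn (by omega) (by omega), div_pow, mul_pow]
        ring
      rw [Finset.sum_congr rfl e2, Finset.sum_const, Finset.card_range, nsmul_eq_mul]
      push_cast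
      ring
    rw [Finset.sum_congr rfl e1, ← Finset.sum_mul, ← Finset.mul_sum, f3_sq]
  refine le_trans ?_ (Finset.sum_le_sum_of_subset_of_nonneg hsub (fun y _ _ => sq_nonneg _))
  rw [hsum]
  have h1 : ((n : ℝ) ^ 2 - 1) / 2 ≤ k := by
    have : ((n ^ 2 : ℕ) : ℝ) ≤ ((2 * k + 1 : ℕ) : ℝ) := by exact_mod_cast hk3
    push_cast at this
    linarith
  set N : ℝ := (n : ℝ) ^ 2 with hN
  have hN4 : (4 : ℝ) ≤ N := by
    have : (2 : ℝ) ≤ n := by exact_mod_cast hn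
    nlinarith
  have h4 : (n : ℝ) ^ 4 = N ^ 2 := by rw [hN]; ring
  rw [h4]
  have hlow : (N - 1) / 2 * ((N - 1) / 2 + 1) * (2 * ((N - 1) / 2) + 1) * ((N - 1) / 2 + 1) ≤
      (k : ℝ) * (k + 1) * (2 * k + 1) * (k + 1) := by
    have hm : (0 : ℝ) ≤ (N - 1) / 2 := by linarith
    have hk0 : (0 : ℝ) ≤ k := by positivity
    gcongr
  have hmain : N ^ 2 / 24 * (N ^ 2 * 6 / 4) ≤
      (N - 1) / 2 * ((N - 1) / 2 + 1) * (2 * ((N - 1) / 2) + 1) * ((N - 1) / 2 + 1) := by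
    have e : (N - 1) / 2 * ((N - 1) / 2 + 1) * (2 * ((N - 1) / 2) + 1) * ((N - 1) / 2 + 1) -
        N ^ 2 / 24 * (N ^ 2 * 6 / 4) = N * (N ^ 3 + 2 * N ^ 2 - 2 * N - 2) / 16 := by ring
    have e2 : 0 ≤ N ^ 3 + 2 * N ^ 2 - 2 * N - 2 := by nlinarith [sq_nonneg N, mul_nonneg (sq_nonneg N) (by linarith : (0 : ℝ) ≤ N - 4)]
    have e3 : 0 ≤ N * (N ^ 3 + 2 * N ^ 2 - 2 * N - 2) / 16 := by positivity
    linarith
  have hfin : 4 / N ^ 2 * ((k : ℝ) * (k + 1) * (2 * k + 1) / 6) * (k + 1) =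
      ((k : ℝ) * (k + 1) * (2 * k + 1) * (k + 1)) / (N ^ 2 * 6 / 4) := by
    field_simp
  rw [hfin, le_div_iff₀ (by positivity)]
  exact hmain.trans hlow

/-! ### F4: the variance in large domains -/

private lemma KPF4_card (n : ℕ) (hn : 1 ≤ n) :
    ((Box (0, 0) (2 * n ^ 2 + 3 * n)).card : ℝ) ≤ 121 * (n : ℝ) ^ 4 := by
  unfold Box
  rw [Finset.card_product]
  simp only [Int.card_Icc]
  have e : ((0 : ℤ) + ((2 * n ^ 2 + 3 * n : ℕ) : ℤ) + 1 - (0 - ((2 * n ^ 2 + 3 * n : ℕ) : ℤ))).toNat =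
      2 * (2 * n ^ 2 + 3 * n) + 1 := by
    omega
  rw [e]
  have h1 : (1 : ℝ) ≤ n := by exact_mod_cast hn
  push_cast
  have h2 : 2 * (2 * (n : ℝ) ^ 2 + 3 * n) + 1 ≤ 11 * (n : ℝ) ^ 2 := by nlinarith
  have h3 : 0 ≤ 2 * (2 * (n : ℝ) ^ 2 + 3 * n) + 1 := by positivity
  calc (2 * (2 * (n : ℝ) ^ 2 + 3 * n) + 1) * (2 * (2 * (n : ℝ) ^ 2 + 3 * n) + 1)
      ≤ (11 * (n : ℝ) ^ 2) * (11 * (n : ℝ) ^ 2) := mul_le_mul h2 h2 h3 (by positivity)
    _ = 121 * (n : ℝ) ^ 4 := by ring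

private lemma KPF4_deep (M r : ℕ) : Deep (Box (0, 0) (M + r)) (Box (0, 0) M) r := by
  intro x hx v hv
  rw [mem_Box] at hx ⊢
  unfold dist1 at hv
  have h1 : |v.1 - (0 : ℤ)| ≤ |x.1 - 0| + |x.1 - v.1| := by
    have := abs_sub_abs_le_abs_sub v.1 x.1
    rw [sub_zero, sub_zero, abs_sub_comm x.1 v.1]
    linarith
  have h2 : |v.2 - (0 : ℤ)| ≤ |x.2 - 0| + |x.2 - v.2| := by
    have := abs_sub_abs_le_abs_sub v.2 x.2
    rw [sub_zero, sub_zero, abs_sub_comm x.2 v.2]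
    linarith
  have h3 := abs_nonneg (x.1 - v.1)
  have h4 := abs_nonneg (x.2 - v.2)
  push_cast
  exact ⟨by linarith [hx.1, hx.2], by linarith [hx.1, hx.2]⟩

private lemma KPF4_num {C L n q s k A : ℝ} (hC : 0 ≤ C) (hn1 : 1 ≤ n)
    (hn2 : 64 * C ≤ n) (hn3 : 9292800 * C * L ^ 2 ≤ n)
    (hk0 : 0 ≤ k) (hk : k ≤ 121 * n ^ 4) (hs : n ^ 4 / 24 ≤ s) (hA : 0 ≤ A)
    (hq : q = (3 / 8 - 8 * C / (n + 1) ^ 16) * s - 32 * C * (L / n ^ 2) ^ 2 * k)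
    (h : 0 ≤ q → q ^ 2 ≤ (12000000 * C * (L / n ^ 2) ^ 2 + 12544 * C / (n + 1) ^ 6 * 2 ^ 2) * k * A) :
    1 / (10 ^ 4 * (121 * (12000000 * C * L ^ 2 + 50176 * C) + 1)) * n ^ 8 ≤ A := by
  have hn0 : 0 < n := by linarith
  have hn4 : n ≤ n ^ 4 := by
    have : (1 : ℝ) ≤ n ^ 3 := one_le_pow₀ hn1
    nlinarith
  have h16 : 8 * C / (n + 1) ^ 16 ≤ 1 / 8 := by
    rw [div_le_iff₀ (by positivity)]
    have h1 : n + 1 ≤ (n + 1) ^ 16 := le_self_pow₀ (by linarith) (by norm_num)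
    nlinarith
  have h6 : 12544 * C / (n + 1) ^ 6 ≤ 12544 * C / n ^ 4 := by
    apply div_le_div_of_nonneg_left (by positivity) (by positivity)
    calc n ^ 4 ≤ (n + 1) ^ 4 := pow_le_pow_left₀ hn0.le (by linarith) 4
      _ ≤ (n + 1) ^ 6 := pow_le_pow_right₀ (by linarith) (by norm_num)
  have hL : (L / n ^ 2) ^ 2 = L ^ 2 / n ^ 4 := by
    rw [div_pow]
    congr 1
    ring
  have hsn : 0 ≤ s := le_trans (by positivity) hs
  have hq1 : n ^ 4 / 100 ≤ q := by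
    have a1 : (1 / 4) * s ≤ (3 / 8 - 8 * C / (n + 1) ^ 16) * s :=
      mul_le_mul_of_nonneg_right (by linarith) hsn
    have a2 : 32 * C * (L / n ^ 2) ^ 2 * k ≤ 3872 * C * L ^ 2 := by
      rw [hL]
      calc 32 * C * (L ^ 2 / n ^ 4) * k ≤ 32 * C * (L ^ 2 / n ^ 4) * (121 * n ^ 4) :=
            mul_le_mul_of_nonneg_left hk (by positivity)
        _ = 3872 * C * L ^ 2 := by field_simp; ring
    rw [hq]
    nlinarith
  have hq0 : 0 ≤ q := le_trans (by positivity) hq1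
  have h1 := h hq0
  have h2 : (12000000 * C * (L / n ^ 2) ^ 2 + 12544 * C / (n + 1) ^ 6 * 2 ^ 2) * k ≤
      121 * (12000000 * C * L ^ 2 + 50176 * C) := by
    have b1 : 12000000 * C * (L / n ^ 2) ^ 2 + 12544 * C / (n + 1) ^ 6 * 2 ^ 2 ≤
        (12000000 * C * L ^ 2 + 50176 * C) / n ^ 4 := by
      rw [hL]
      have : 12544 * C / (n + 1) ^ 6 * 2 ^ 2 ≤ 50176 * C / n ^ 4 := by
        calc 12544 * C / (n + 1) ^ 6 * 2 ^ 2 ≤ 12544 * C / n ^ 4 * 2 ^ 2 :=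
              mul_le_mul_of_nonneg_right h6 (by norm_num)
          _ = 50176 * C / n ^ 4 := by ring
      calc 12000000 * C * (L ^ 2 / n ^ 4) + 12544 * C / (n + 1) ^ 6 * 2 ^ 2
          ≤ 12000000 * C * (L ^ 2 / n ^ 4) + 50176 * C / n ^ 4 := by linarith
        _ = (12000000 * C * L ^ 2 + 50176 * C) / n ^ 4 := by ring
    calc (12000000 * C * (L / n ^ 2) ^ 2 + 12544 * C / (n + 1) ^ 6 * 2 ^ 2) * k
        ≤ ((12000000 * C * L ^ 2 + 50176 * C) / n ^ 4) * k := mul_le_mul_of_nonneg_right b1 hk0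
      _ ≤ ((12000000 * C * L ^ 2 + 50176 * C) / n ^ 4) * (121 * n ^ 4) :=
          mul_le_mul_of_nonneg_left hk (by positivity)
      _ = 121 * (12000000 * C * L ^ 2 + 50176 * C) := by field_simp
  have h3 : q ^ 2 ≤ (121 * (12000000 * C * L ^ 2 + 50176 * C) + 1) * A := by
    refine h1.trans (mul_le_mul_of_nonneg_right (by linarith) hA)
  have h4 : (n ^ 4 / 100) ^ 2 ≤ q ^ 2 := pow_le_pow_left₀ (by positivity) hq1 2
  have hpos : 0 < 121 * (12000000 * C * L ^ 2 + 50176 * C) + 1 := by positivity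
  rw [div_mul_eq_mul_div, div_le_iff₀ (by positivity)]
  nlinarith

/-
`bogoliubov` with `f = fn n`, `R = n`, `T = 2 n^2`, `Λ = L / n^2`, `B = 2`, eventually in `D` (`TailD` for a finite set `S` containing all balls of radius `8 n + 8` about the points of
`Box 0 (T + 3 n)`, `Deep` for `D ⊇ S`, `lap_eventually`).  The box has at most `(11 n^2)^2 = 121 n^4` points.  For large `n`: `8 C / (n+1)^16 ≤ 1/8`,
`32 C Λ^2 card ≤ 3872 C L^2`, so the base of the square is at least `n^4 / 96 - 3872 C L^2 ≥ n^4 / 100`; the factor on the right is at most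
`121 (12000000 C L^2 + 50176 C) =: C₅`.  So `avg (B^2) ≥ n^8 / (10^4 (C₅ + 1))`.
-/
theorem var_lower {a : V → V → ℝ}
    (ha : ∀ x y, Tendsto (fun D => avg (Om D) (fun h => (((h x - h y : ℤ) : ℝ)) ^ 2)) dom (𝓝 (a x y)))
    {C : ℝ} (hC : 0 ≤ C) (hT : ∀ (R : ℕ) (F : Finset V), ∀ᶠ D in dom, TailD D F R C) :
    ∃ c : ℝ, 0 < c ∧ ∃ n₀ : ℕ, ∀ n ≥ n₀, ∀ᶠ D in dom,
      c * (n : ℝ) ^ 8 ≤ avg (Om D) (fun h => (∑ x ∈ Box (0, 0) (2 * n ^ 2 + 3 * n), fn n x * h x) ^ 2) := by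
  obtain ⟨L, hL0, hL⟩ := fn_lip
  refine ⟨1 / (10 ^ 4 * (121 * (12000000 * C * L ^ 2 + 50176 * C) + 1)), by positivity,
    max 2 (⌈64 * C⌉₊ + ⌈9292800 * C * L ^ 2⌉₊), fun n hn => ?_⟩
  have hn2 : 2 ≤ n := (le_max_left _ _).trans hn
  have hn1 : 1 ≤ n := by omega
  have hn3 : 64 * C ≤ n := by
    refine (Nat.le_ceil _).trans ?_
    exact_mod_cast (Nat.le_add_right _ _).trans ((le_max_right _ _).trans hn)
  have hn4 : 9292800 * C * L ^ 2 ≤ n := by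
    refine (Nat.le_ceil _).trans ?_
    exact_mod_cast (Nat.le_add_left _ _).trans ((le_max_right _ _).trans hn)
  have hsub : ∀ᶠ D in dom, Box (0, 0) ((2 * n ^ 2 + 3 * n) + (8 * n + 8)) ⊆ D :=
    eventually_dom.2 ⟨_, fun D hD _ => hD⟩
  filter_upwards [hsub, hT n (Box (0, 0) ((2 * n ^ 2 + 3 * n) + (8 * n + 8))),
    lap_eventually ha (Box (0, 0) (2 * n ^ 2 + 3 * n))] with D h1 h2 h3
  have hS : Deep (Box (0, 0) ((2 * n ^ 2 + 3 * n) + (8 * n + 8))) (Box (0, 0) (2 * n ^ 2 + 3 * n))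
      (8 * (n : ℤ) + 8) := by
    have := KPF4_deep (2 * n ^ 2 + 3 * n) (8 * n + 8)
    push_cast at this
    exact this
  have hD : Deep D (Box (0, 0) (2 * n ^ 2 + 3 * n)) (8 * (n : ℤ) + 8) :=
    fun x hx v hv => h1 (hS x hx v hv)
  have hA : 0 ≤ avg (Om D) (fun h => (∑ x ∈ Box (0, 0) (2 * n ^ 2 + 3 * n), fn n x * (h x : ℝ)) ^ 2) := by
    unfold avg
    exact div_nonneg (Finset.sum_nonneg fun g _ => sq_nonneg _) (Nat.cast_nonneg _)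
  have hb := bogoliubov (T := 2 * n ^ 2) hn1 hC h2 hD hS h3 (fn n) (fun x hx => fn_supp hn1 x hx)
    (by positivity) (hL n hn1) (fn_bound n)
  exact KPF4_num hC (by exact_mod_cast hn1) hn3 hn4 (Nat.cast_nonneg _) (KPF4_card n hn1)
    (fn_sq_sum hn2) hA rfl hb

/-! ### F5: the limit -/

/-
`∑ fn n x * h x = ∑ fn n x * (h x - h 0)` by `fn_sum`; `pair_tendsto` with `u = w = fn n`; `ge_of_tendsto`.
-/
theorem limit_lower {a : V → V → ℝ}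
    (ha : ∀ x y, Tendsto (fun D => avg (Om D) (fun h => (((h x - h y : ℤ) : ℝ)) ^ 2)) dom (𝓝 (a x y)))
    {C : ℝ} (hC : 0 ≤ C) (hT : ∀ (R : ℕ) (F : Finset V), ∀ᶠ D in dom, TailD D F R C) :
    ∃ c : ℝ, 0 < c ∧ ∃ n₀ : ℕ, ∀ n ≥ n₀, c * (n : ℝ) ^ 8 ≤ ∑ x ∈ Box (0, 0) (2 * n ^ 2 + 3 * n),
      ∑ y ∈ Box (0, 0) (2 * n ^ 2 + 3 * n), fn n x * fn n y * ((a x 0 + a y 0 - a x y) / 2) := by
  obtain ⟨c, hc, n₀, h⟩ := var_lower ha hC hT
  refine ⟨c, hc, n₀, fun n hn => ?_⟩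
  refine ge_of_tendsto (pair_tendsto ha (fn n) (fn n) (Box (0, 0) (2 * n ^ 2 + 3 * n))
    (Box (0, 0) (2 * n ^ 2 + 3 * n))) ?_
  filter_upwards [h n hn] with D hD
  have h1 : (fun h : V → ℤ => (∑ x ∈ Box (0, 0) (2 * n ^ 2 + 3 * n), fn n x * ((h x : ℝ) - h 0)) *
      ∑ y ∈ Box (0, 0) (2 * n ^ 2 + 3 * n), fn n y * ((h y : ℝ) - h 0)) =
      fun h => (∑ x ∈ Box (0, 0) (2 * n ^ 2 + 3 * n), fn n x * h x) ^ 2 := by
    funext h
    have h2 : ∑ x ∈ Box (0, 0) (2 * n ^ 2 + 3 * n), fn n x * ((h x : ℝ) - h 0) =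
        ∑ x ∈ Box (0, 0) (2 * n ^ 2 + 3 * n), fn n x * (h x : ℝ) := by
      simp only [mul_sub]
      rw [Finset.sum_sub_distrib, ← Finset.sum_mul, fn_sum, zero_mul, sub_zero]
    rw [h2]
    ring
  rw [h1]
  exact hD

/-
`hpair` for `f = Fb`, `ε = c / 2`, `δ = 1 / n^2` with `n` large, `s = Box 0 (2 n^2 + 3 n)` (`fn_supp`): `wt δ Fb x = fn n x / n^4`.  If `K = 0` then `c ≤ c / 2`.
-/
theorem kp_pos {K : ℝ} {a : V → V → ℝ} (hK : 0 ≤ K)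
    (ha : ∀ x y, Tendsto (fun D => avg (Om D) (fun h => (((h x - h y : ℤ) : ℝ)) ^ 2)) dom (𝓝 (a x y)))
    (hpair : ∀ f : ℝ × ℝ → ℝ, ContDiff ℝ 1 f → HasCompactSupport f → ∫ y, f y = 0 → ∀ ε > 0,
      ∃ δ₀ > 0, ∀ δ : ℝ, 0 < δ → δ < δ₀ → ∀ s : Finset V,
        (∀ x : V, f (δ * x.1, δ * x.2) ≠ 0 → x ∈ s) →
        |(∑ x ∈ s, ∑ y ∈ s, wt δ f x * wt δ f y * ((a x 0 + a y 0 - a x y) / 2)) -
          K * energy f| ≤ ε)
    {C : ℝ} (hC : 0 ≤ C) (hT : ∀ (R : ℕ) (F : Finset V), ∀ᶠ D in dom, TailD D F R C) : 0 < K := by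
  obtain ⟨c, hc, n₀, h⟩ := limit_lower ha hC hT
  rcases hK.eq_or_lt with h0 | h0
  swap
  · exact h0
  exfalso
  obtain ⟨δ₀, hδ₀, hp⟩ := hpair Fb Fb_contDiff Fb_compact Fb_int (c / 2) (by positivity)
  obtain ⟨m, hm⟩ := exists_nat_gt (1 / δ₀)
  set n : ℕ := max n₀ (m + 1) with hn
  have hn0 : n₀ ≤ n := le_max_left _ _
  have hn1 : m + 1 ≤ n := le_max_right _ _
  have hn2 : 1 ≤ n := by omega
  have hnR : (1 : ℝ) ≤ n := by exact_mod_cast hn2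
  have hmn : (m : ℝ) < n := by exact_mod_cast hn1
  have hpos : (0 : ℝ) < (n : ℝ) ^ 2 := by positivity
  have hδ1 : 0 < 1 / (n : ℝ) ^ 2 := by positivity
  have hδ2 : 1 / (n : ℝ) ^ 2 < δ₀ := by
    rw [div_lt_iff₀ hpos]
    have h1 : 1 < δ₀ * n := by
      have h2 : 1 / δ₀ < n := hm.trans hmn
      rw [div_lt_iff₀ hδ₀] at h2
      linarith
    nlinarith
  have hwt : ∀ x : V, wt (1 / (n : ℝ) ^ 2) Fb x = fn n x / (n : ℝ) ^ 4 := by
    intro x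
    unfold wt fn
    rw [show 1 / (n : ℝ) ^ 2 * (x.1 : ℝ) = (x.1 : ℝ) / (n : ℝ) ^ 2 by ring,
      show 1 / (n : ℝ) ^ 2 * (x.2 : ℝ) = (x.2 : ℝ) / (n : ℝ) ^ 2 by ring]
    field_simp
  have h1 := hp _ hδ1 hδ2 (Box (0, 0) (2 * n ^ 2 + 3 * n)) (fun x hx => by
    by_contra hx'
    have h2 : x ∉ Box (0, 0) (2 * n ^ 2) := by
      intro h3
      refine hx' ?_
      rw [mem_Box] at h3 ⊢
      have h4 : ((2 * n ^ 2 : ℕ) : ℤ) ≤ ((2 * n ^ 2 + 3 * n : ℕ) : ℤ) := by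
        exact_mod_cast Nat.le_add_right _ _
      exact ⟨h3.1.trans h4, h3.2.trans h4⟩
    have h5 := fn_supp hn2 x h2
    unfold fn at h5
    refine hx ?_
    rw [show 1 / (n : ℝ) ^ 2 * (x.1 : ℝ) = (x.1 : ℝ) / (n : ℝ) ^ 2 by ring,
      show 1 / (n : ℝ) ^ 2 * (x.2 : ℝ) = (x.2 : ℝ) / (n : ℝ) ^ 2 by ring]
    exact h5)
  have h2 := h n hn0
  rw [← h0, zero_mul, sub_zero] at h1
  have h3 : ∑ x ∈ Box (0, 0) (2 * n ^ 2 + 3 * n), ∑ y ∈ Box (0, 0) (2 * n ^ 2 + 3 * n),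
      wt (1 / (n : ℝ) ^ 2) Fb x * wt (1 / (n : ℝ) ^ 2) Fb y * ((a x 0 + a y 0 - a x y) / 2) =
      (∑ x ∈ Box (0, 0) (2 * n ^ 2 + 3 * n), ∑ y ∈ Box (0, 0) (2 * n ^ 2 + 3 * n),
        fn n x * fn n y * ((a x 0 + a y 0 - a x y) / 2)) / (n : ℝ) ^ 8 := by
    rw [Finset.sum_div]
    refine Finset.sum_congr rfl fun x _ => ?_
    rw [Finset.sum_div]
    refine Finset.sum_congr rfl fun y _ => ?_
    rw [hwt, hwt]
    field_simp
  rw [h3] at h1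
  have h4 := (abs_le.1 h1).2
  have h5 : (0 : ℝ) < (n : ℝ) ^ 8 := by positivity
  rw [div_le_iff₀ h5] at h4
  nlinarith

end KP
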